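import Pool.Agent.J4.H11.CX.Cover

/-! Curves `A¹` in the fibration over a curve covered by `A¹`: the construction. -/

set_option autoImplicit false
set_option linter.overlappingInstances false
set_option linter.unusedSectionVars false
set_option maxHeartbeats 4000000
set_option synthInstance.maxHeartbeats 400000

open FF IntermediateField Pool.Agent.W619.PQ Pool.Agent.W603.LV Pool.Agent.R885
  Pool.Agent.J4.H11.TQ Pool.Agent.W602.GT

namespace Pool.Agent.J4.H11.CX

section

variable {k C K : Type} [Field k] [Field C] [Algebra k C] [Field K] [Algebra k K] [Algebra C K]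
  [IsScalarTower k C K] {r : ℕ} [CharZero k] [IsFF k C] [IsAlgClosed k]

instance isFF_ratFunc : IsFF k (RatFunc k) := by
  have htop : k⟮(RatFunc.X : RatFunc k)⟯ = ⊤ := RatFunc.adjoin_X
  refine IsFF.of_finite RatFunc.transcendental_X ?_
  rw [htop]
  exact Module.Finite.of_surjective
    (Algebra.linearMap (⊤ : IntermediateField k (RatFunc k)) (RatFunc k))
    (fun z => ⟨⟨z, trivial⟩, rfl⟩)

/-- **Covering curves.** If the quotient curve is the image of `A¹` under a map which is ramified
enough then the variety is `A¹`-uniruled. -/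
theorem a1_cover {z : Fin r → K} (hz : AlgebraicIndependent C z)
    (hgen : IntermediateField.adjoin C (Set.range z) = ⊤)
    {S : Place k C → ℕ → (Fin r → ℤ) → Prop} {H : (Fin r → ℤ) → Prop} (h0 : H 0)
    (hS : ∀ (p : Place k C) (m μ : ℕ) (v : Fin r → ℤ), 0 < m → 0 < μ →
      (S p (m * μ) (m • v) ↔ S p μ v))
    (hfin : {p | ¬ S p 1 0}.Finite) (ι : C →ₐ[k] RatFunc k)
    (hι : ∀ q : Place k (RatFunc k), 0 ≤ q.ord RatFunc.X → ∀ (p : Place k C) (e : ℕ), 0 < e →
      (∀ f, q.ord (ι f) = e * p.ord f) → mult S p ≠ 0 ∧ mult S p ∣ e) :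
    Pool.Agent.W619.PL.IsA1Uniruled k K (r + 1) (CBd z S H) := by
  classical
  have hz0 := x_ne hz
  have htopX : k⟮(RatFunc.X : RatFunc k)⟯ = ⊤ := RatFunc.adjoin_X
  -- the vectors
  have hu : ∀ p : Place k C, ∃ u : Fin r → ℤ, (mult S p ≠ 0 → S p (mult S p) u) ∧
      (S p 1 0 → u = 0) := by
    intro p
    by_cases hp : S p 1 0
    · refine ⟨0, fun _ => ?_, fun _ => rfl⟩
      rw [mult_one hp]
      exact hp
    · by_cases hm : mult S p = 0
      · exact ⟨0, fun h => absurd hm h, fun h => absurd h hp⟩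
      · obtain ⟨u, hu⟩ := mult_mem hm
        exact ⟨u, fun _ => hu, fun h => absurd h hp⟩
  choose u hu1 hu2 using hu
  -- the places below
  have hbelow : ∀ q : Place k (RatFunc k), ∃ v : Fin r → ℤ,
      (∃ (p : Place k C) (e : ℕ), 0 < e ∧ (∀ f, q.ord (ι f) = e * p.ord f) ∧
        v = (e / mult S p) • u p) ∨ ((∀ f, q.ord (ι f) = 0) ∧ v = 0) := by
    intro q
    by_cases hq : ∀ f, q.ord (ι f) = 0
    · exact ⟨0, Or.inr ⟨hq, rfl⟩⟩
    · push Not at hq
      obtain ⟨f0, hf0⟩ := hq
      obtain ⟨p, e, he, hpe⟩ := Pool.Agent.W619.Y.exists_restrict q (ι : C →+* RatFunc k)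
        (fun c hc => by
          change q.ord (ι (algebraMap k C c)) = 0
          rw [ι.commutes]
          exact q.ord_const hc) hf0
      exact ⟨_, Or.inl ⟨p, e, he, hpe, rfl⟩⟩
  choose hh hhq using hbelow
  have hfinh : ∀ i, {q | hh q i ≠ 0}.Finite := by
    intro i
    have hsurj : ∀ p : Place k C, ∃ t : C, p.ord t = 1 := fun p => by
      obtain ⟨t, -, ht⟩ := p.surj
      exact ⟨t, ht⟩
    choose t ht using hsurj
    refine (hfin.biUnion fun p _ => finite_support (k := k) (ι (t p))).subset ?_
    intro q hq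
    rcases hhq q with ⟨p, e, he, hpe, hv⟩ | ⟨-, hv⟩
    · rw [Set.mem_iUnion₂]
      refine ⟨p, ?_, ?_⟩
      · intro hp
        apply hq
        rw [hv, hu2 p hp, smul_zero]
        rfl
      · change q.ord (ι (t p)) ≠ 0
        rw [hpe, ht, mul_one]
        exact_mod_cast he.ne'
    · exact absurd (by rw [hv]; rfl) hq
  have hg : ∀ i, ∃ g : RatFunc k, g ≠ 0 ∧ ∀ q : Place k (RatFunc k), 0 ≤ q.ord RatFunc.X →
      q.ord g = hh q i := fun i => exists_div htopX (fun q => hh q i) (hfinh i)
  choose g hg0 hg using hg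
  -- the field
  let N := FractionRing (MvPolynomial (Fin r) (RatFunc k))
  let s : N := algebraMap (RatFunc k) N RatFunc.X
  have hZ := ZZ_ind (R := RatFunc k) (r := r)
  obtain ⟨φ, hφ1, hφ2⟩ := exists_hom (R := RatFunc k) (N := N) hz hgen ι hZ
  have hginv : ∀ i, (g i)⁻¹ ≠ 0 := fun i => inv_ne_zero (hg0 i)
  have hc := scale_ind hZ hginv
  have hcgen := scale_gen (ZZ_gen (R := RatFunc k) (r := r)) hginv
  set c : Fin r → N := fun i => algebraMap (RatFunc k) N (g i)⁻¹ * ZZ (RatFunc k) r i with hcdef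
  have hc0 := x_ne hc
  let M : IntermediateField k N := IntermediateField.adjoin k (Set.range c)
  have hb := basis_cons (k := k) (C := RatFunc k) (K := N) RatFunc.transcendental_X hc hcgen
  have hcM : ∀ i, c i ∈ M := fun i => IntermediateField.subset_adjoin _ _ ⟨i, rfl⟩
  have hZc : ∀ i, ZZ (RatFunc k) r i = algebraMap (RatFunc k) N (g i) * c i := by
    intro i
    rw [hcdef]
    change _ = algebraMap (RatFunc k) N (g i) * (algebraMap (RatFunc k) N (g i)⁻¹ * _)
    rw [← mul_assoc, ← map_mul, mul_inv_cancel₀ (hg0 i), map_one, one_mul]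
  -- `s` is transcendental
  have hchN : CharZero N := charZero_of_injective_algebraMap (algebraMap k N).injective
  have hts : Transcendental M s := by
    obtain ⟨E, hE⟩ := Pool.Agent.W636.PG.exists_duals k N (r + 1) _ hb
    intro halg
    have h1 : M ≤ consts (E 0) := by
      rw [IntermediateField.adjoin_le_iff]
      rintro _ ⟨j, rfl⟩
      have h2 := hE 0 j.succ
      rw [Fin.cons_succ, if_neg (Fin.succ_ne_zero j).symm] at h2
      exact h2
    have h2 := der_of_alg (E 0) (alg_map h1 halg)
    have h3 := hE 0 0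
    rw [Fin.cons_zero, if_pos rfl] at h3
    rw [h3] at h2
    exact one_ne_zero h2
  have hsmem : ∀ f : RatFunc k, algebraMap (RatFunc k) N f ∈ M⟮s⟯ := by
    intro f
    have hf : f ∈ k⟮(RatFunc.X : RatFunc k)⟯ := by rw [htopX]; trivial
    induction hf using IntermediateField.adjoin_induction with
    | mem y hy =>
      rw [Set.mem_singleton_iff.1 hy]
      exact IntermediateField.mem_adjoin_simple_self _ _
    | algebraMap y =>
      have h1 : algebraMap (RatFunc k) N (algebraMap k (RatFunc k) y) =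
          algebraMap M N (algebraMap k M y) := by
        rw [← IsScalarTower.algebraMap_apply]
        rfl
      rw [h1]
      exact IntermediateField.algebraMap_mem _ _
    | add y z _ _ hy hz => rw [map_add]; exact add_mem hy hz
    | inv y _ hy => rw [map_inv₀]; exact inv_mem hy
    | mul y z _ _ hy hz => rw [map_mul]; exact mul_mem hy hz
  have htop : M⟮s⟯ = ⊤ := by
    rw [eq_top_iff]
    intro x _
    have hx : x ∈ IntermediateField.adjoin (RatFunc k) (Set.range c) := by
      rw [hcgen]; trivial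
    induction hx using IntermediateField.adjoin_induction with
    | mem y hy =>
      obtain ⟨i, rfl⟩ := hy
      exact IntermediateField.algebraMap_mem (M⟮s⟯) (⟨c i, hcM i⟩ : M)
    | algebraMap y => exact hsmem y
    | add y z _ _ hy hz => exact add_mem (hy trivial) (hz trivial)
    | inv y _ hy => exact inv_mem (hy trivial)
    | mul y z _ _ hy hz => exact mul_mem (hy trivial) (hz trivial)
  have hfinN : FiniteDimensional M⟮s⟯ N := by
    rw [htop]
    exact Module.Finite.of_surjective
      (Algebra.linearMap (⊤ : IntermediateField M N) N) (fun z => ⟨⟨z, trivial⟩, rfl⟩)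
  have hFF : IsFF M N := IsFF.of_finite hts hfinN
  have htrd : Algebra.trdeg k M + 1 = (r + 1 : ℕ) := by
    have h1 := _root_.trdeg_add_eq k M (A := N)
    rw [hFF.trdeg] at h1
    rw [h1, ← hb.cardinalMk_eq_trdeg]
    simp
  let e1 : RatFunc M ≃ₐ[M] M⟮s⟯ := RatFunc.algEquivOfTranscendental s hts
  let e2 : M⟮s⟯ ≃ₐ[M] N := (equivOfEq htop).trans topEquiv
  let e3 : RatFunc M ≃ₐ[M] N := e1.trans e2
  have he3 : e3 RatFunc.X = s := by
    change e2 (e1 RatFunc.X) = s
    have : e1 RatFunc.X = AdjoinSimple.gen M s := by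
      rw [← RatFunc.algebraMap_X]
      change RatFunc.algEquivOfTranscendental s hts
        (algebraMap (Polynomial _) (RatFunc _) Polynomial.X) = _
      rw [RatFunc.algEquivOfTranscendental_algebraMap, Polynomial.aeval_X]
    rw [this]
    rfl
  refine ⟨M, inferInstance, inferInstance,
    ((e3.symm.restrictScalars k : N ≃ₐ[k] RatFunc M).toAlgHom).comp φ,
    (IntermediateField.essFiniteType_iff).2
      (IntermediateField.fg_adjoin_of_finite (Set.finite_range _)), htrd, ?_⟩
  intro w hw v e he hwv hbd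
  apply hbd
  have he' : (0 : ℤ) < e := by exact_mod_cast he
  have hwv' : ∀ f : K, w.ord (e3.symm (φ f)) = e * v.ord f := hwv
  have hX : 0 ≤ w.ord RatFunc.X := by
    rcases hw with h | h
    · exact absurd h RatFunc.X_ne_zero
    · exact h
  let ψ : RatFunc k →+* RatFunc M := (e3.symm : N →+* RatFunc M).comp (algebraMap (RatFunc k) N)
  have hψ : ∀ f, ψ f = e3.symm (algebraMap (RatFunc k) N f) := fun _ => rfl
  have hψX : ψ RatFunc.X = RatFunc.X := by
    rw [hψ]
    apply e3.injective
    rw [e3.apply_symm_apply, he3]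
  have hCord : ∀ f : C, w.ord (ψ (ι f)) = e * v.ord (algebraMap C K f) := by
    intro f
    rw [← hwv', hφ1]
    rfl
  have hzord : ∀ i, w.ord (ψ (g i)) = e * v.ord (z i) := by
    intro i
    rw [← hwv', hφ2, hZc, map_mul]
    have h1 : e3.symm (c i) = algebraMap M (RatFunc M) ⟨c i, hcM i⟩ := by
      apply e3.injective
      rw [e3.apply_symm_apply, e3.commutes]
      rfl
    have h2 : (⟨c i, hcM i⟩ : M) ≠ 0 := fun h => hc0 i (congrArg Subtype.val h)
    have h3 : ψ (g i) ≠ 0 := (map_ne_zero ψ).2 (hg0 i)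
    rw [h1, ← hψ, w.ord_mul h3 (by simpa using h2), w.ord_const h2, add_zero]
  have hzero : (∀ f, w.ord (ψ (ι f)) = 0) → (∀ i, w.ord (ψ (g i)) = 0) →
      (∀ c : C, v.ord (algebraMap C K c) = 0) ∧ H fun i => v.ord (z i) := by
    intro h1 h2
    constructor
    · intro f
      have h3 := hCord f
      rw [h1] at h3
      exact (mul_eq_zero.1 h3.symm).resolve_left he'.ne'
    · have h3 : (fun i => v.ord (z i)) = 0 := by
        funext i
        have h3 := hzord i
        rw [h2] at h3
        exact (mul_eq_zero.1 h3.symm).resolve_left he'.ne'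
      rw [h3]
      exact h0
  by_cases htriv : ∀ f, w.ord (ψ f) = 0
  · exact Or.inl (hzero (fun f => htriv _) fun i => htriv _)
  push Not at htriv
  obtain ⟨f0, hf0⟩ := htriv
  obtain ⟨q, a, ha, hqa⟩ := Pool.Agent.W619.Y.exists_restrict (k := k) w ψ (fun c hc => by
    have h1 : ψ (algebraMap k (RatFunc k) c) = algebraMap M (RatFunc M) (algebraMap k M c) := by
      rw [hψ, ← IsScalarTower.algebraMap_apply]
      apply e3.injective
      rw [e3.apply_symm_apply, e3.commutes]
      rfl
    rw [h1]
    exact w.ord_const (by simpa using hc)) hf0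
  have ha' : (0 : ℤ) < a := by exact_mod_cast ha
  have hqX : 0 ≤ q.ord RatFunc.X := by
    have h1 := hqa RatFunc.X
    rw [hψX] at h1
    rw [h1] at hX
    exact nonneg_of_mul_nonneg_right hX ha'
  rcases hhq q with ⟨p, b, hb0, hpb, hv⟩ | ⟨htr, hv⟩
  · right
    obtain ⟨hm0, hmb⟩ := hι q hqX p b hb0 hpb
    obtain ⟨t, -, ht⟩ := p.surj
    have hb' : (0 : ℤ) < b := by exact_mod_cast hb0
    have h1 : (e : ℤ) * v.ord (algebraMap C K t) = a * b := by
      rw [← hCord, hqa, hpb, ht, mul_one]
    have h2 : 0 < v.ord (algebraMap C K t) := by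
      by_contra hneg
      have h3 := mul_nonpos_of_nonneg_of_nonpos he'.le (not_lt.1 hneg)
      have h4 : (0 : ℤ) < a * b := mul_pos ha' hb'
      omega
    obtain ⟨μ, hμ⟩ : ∃ μ : ℕ, (μ : ℤ) = v.ord (algebraMap C K t) :=
      ⟨_, Int.toNat_of_nonneg h2.le⟩
    rw [← hμ] at h1 h2
    have hμ0 : 0 < μ := by exact_mod_cast h2
    refine ⟨p, μ, hμ0, fun f => ?_, ?_⟩
    · apply mul_left_cancel₀ he'.ne'
      rw [← hCord, hqa, hpb, ← mul_assoc, ← h1]
      ring
    · have h3 : e * μ = a * b := by exact_mod_cast h1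
      obtain ⟨d, hd⟩ := hmb
      have hmpos : 0 < mult S p := Nat.pos_of_ne_zero hm0
      have hdiv : b / mult S p = d := by
        rw [hd]
        exact Nat.mul_div_cancel_left d hmpos
      have hd0 : 0 < d := by
        rcases Nat.eq_zero_or_pos d with h | h
        · rw [h, mul_zero] at hd
          omega
        · exact h
      have h4 : (e • fun i => v.ord (z i)) = (a * d) • u p := by
        funext i
        rw [Pi.smul_apply, Pi.smul_apply, nsmul_eq_mul, nsmul_eq_mul, ← hzord, hqa, hg i q hqX,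
          hv, hdiv, Pi.smul_apply, nsmul_eq_mul]
        push_cast
        ring
      rw [← hS p e μ _ he hμ0, h4, h3, hd]
      have h5 : a * (mult S p * d) = (a * d) * mult S p := by ring
      rw [h5, hS p (a * d) _ _ (Nat.mul_pos ha hd0) hmpos]
      exact hu1 p hm0
  · left
    refine hzero (fun f => by rw [hqa, htr, mul_zero]) fun i => ?_
    rw [hqa, hg i q hqX, hv]
    simp

end

end Pool.Agent.J4.H11.CX
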