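import Pool.Agent.J4.H11.CX.Tri
import Pool.Agent.J4.H11.CX.Cover2

/-! Spherical orbifold curves are covered by `A¹`. -/

set_option autoImplicit false
set_option linter.overlappingInstances false
set_option linter.unusedSectionVars false
set_option maxHeartbeats 4000000
set_option synthInstance.maxHeartbeats 400000

open FF IntermediateField Pool.Agent.W619.PQ Pool.Agent.W603.LV Polynomial

namespace Pool.Agent.J4.H11.CX

section

variable {k : Type} [Field k] [CharZero k] [IsAlgClosed k]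
  {C : Type} [Field C] [Algebra k C] [IsFF k C]

theorem top_scale {x : C} (hx : k⟮x⟯ = ⊤) {a : k} (ha : a ≠ 0) : k⟮algebraMap k C a * x⟯ = ⊤ := by
  rw [eq_top_iff, ← hx, adjoin_simple_le_iff]
  have h1 := mem_adjoin_simple_self k (algebraMap k C a * x)
  have h2 := mul_mem (_root_.algebraMap_mem k⟮algebraMap k C a * x⟯ a⁻¹) h1
  rwa [← mul_assoc, ← map_mul, inv_mul_cancel₀ ha, map_one, one_mul] at h2

theorem reg_val {x : C} (hx : k⟮x⟯ = ⊤) {p : Place k C} (hp : 0 ≤ p.ord x) :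
    ∃ a : k, 0 < p.ord (x - algebraMap k C a) := by
  obtain ⟨D, hD, hDx⟩ := exists_ddx (transcendental_of_top hx)
  obtain ⟨-, a, ha, -⟩ := vo_finite_place hx hD hDx p hp
  exact ⟨a, by omega⟩

/-- a generator with a given pole -/
theorem exists_pole (hrat : ∃ t : C, k⟮t⟯ = ⊤) (p2 : Place k C) :
    ∃ x : C, k⟮x⟯ = ⊤ ∧ p2.ord x < 0 := by
  obtain ⟨x, hx⟩ := hrat
  by_cases h : p2.ord x < 0
  · exact ⟨x, hx, h⟩
  · obtain ⟨a, ha⟩ := reg_val hx (not_lt.1 h)
    refine ⟨(x - algebraMap k C a)⁻¹, ?_, ?_⟩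
    · rw [adjoin_inv, top_sub hx]
    · rw [p2.ord_inv]
      omega

/-- a generator with given zero and pole -/
theorem exists_zero_pole (hrat : ∃ t : C, k⟮t⟯ = ⊤) {p1 p2 : Place k C} (h12 : p1 ≠ p2) :
    ∃ x : C, k⟮x⟯ = ⊤ ∧ 0 < p1.ord x ∧ p2.ord x < 0 := by
  obtain ⟨x, hx, hx2⟩ := exists_pole hrat p2
  obtain ⟨P, hP, hP'⟩ := pole_unique hx
  have h1 : 0 ≤ p1.ord x := by
    by_contra h
    apply h12
    rw [hP' p1 (not_le.1 h), hP' p2 hx2]
  obtain ⟨a, ha⟩ := reg_val hx h1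
  refine ⟨x - algebraMap k C a, top_sub hx a, ha, ?_⟩
  have hx0 : x ≠ 0 := by
    rintro rfl
    rw [p2.ord_zero] at hx2
    omega
  by_cases ha0 : a = 0
  · rw [ha0, map_zero, sub_zero]
    exact hx2
  · have h2 : p2.ord (-(algebraMap k C a)) = 0 := by rw [p2.ord_neg, p2.ord_const ha0]
    have h3 := (p2.ord_add_eq (f := x) (g := -(algebraMap k C a)) hx0
      (by simpa using ha0) (by omega)).2
    rw [← sub_eq_add_neg] at h3
    omega

/-- a generator with three given values -/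
theorem exists_three (hrat : ∃ t : C, k⟮t⟯ = ⊤) {p1 p2 p3 : Place k C} (h12 : p1 ≠ p2)
    (h13 : p1 ≠ p3) (h23 : p2 ≠ p3) :
    ∃ x : C, k⟮x⟯ = ⊤ ∧ 0 < p1.ord x ∧ p2.ord x < 0 ∧ 0 < p3.ord (x - 1) := by
  obtain ⟨x, hx, hx1, hx2⟩ := exists_zero_pole hrat h12
  obtain ⟨P, hP, hP'⟩ := pole_unique hx
  obtain ⟨Z, hZ, hZ'⟩ := zero_unique hx
  have h1 : 0 ≤ p3.ord x := by
    by_contra h
    apply h23
    rw [hP' p3 (not_le.1 h), hP' p2 hx2]
  obtain ⟨a, ha⟩ := reg_val hx h1
  have ha0 : a ≠ 0 := by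
    rintro rfl
    rw [map_zero, sub_zero] at ha
    apply h13
    rw [hZ' p1 hx1, hZ' p3 ha]
  have hx0 : x ≠ 0 := by
    rintro rfl
    rw [p2.ord_zero] at hx2
    omega
  have hai : algebraMap k C a⁻¹ ≠ 0 := by simpa using ha0
  have ht := transcendental_of_top hx
  have hxa : x - algebraMap k C a ≠ 0 := sub_const_ne ht a
  have hord : ∀ (p : Place k C) (f : C), f ≠ 0 → p.ord (algebraMap k C a⁻¹ * f) = p.ord f := by
    intro p f hf
    rw [p.ord_mul hai hf, p.ord_const (inv_ne_zero ha0), zero_add]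
  refine ⟨algebraMap k C a⁻¹ * x, top_scale hx (inv_ne_zero ha0), ?_, ?_, ?_⟩
  · rw [hord _ _ hx0]; exact hx1
  · rw [hord _ _ hx0]; exact hx2
  · have h2 : algebraMap k C a⁻¹ * x - 1 = algebraMap k C a⁻¹ * (x - algebraMap k C a) := by
      rw [mul_sub, ← map_mul, inv_mul_cancel₀ ha0, map_one]
    rw [h2, hord _ _ hxa]
    exact ha

/-- the embedding with a given image of a generator -/
theorem exists_iota {t : C} (ht : k⟮t⟯ = ⊤) {ψ : RatFunc k} (hψ : Transcendental k ψ) :
    ∃ ι : C →ₐ[k] RatFunc k, ι t = ψ := by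
  have htt := transcendental_of_top ht
  let e1 : RatFunc k ≃ₐ[k] k⟮t⟯ := RatFunc.algEquivOfTranscendental t htt
  let e2 : k⟮t⟯ ≃ₐ[k] C := (equivOfEq ht).trans topEquiv
  let e3 : RatFunc k ≃ₐ[k] C := e1.trans e2
  have he3 : e3 RatFunc.X = t := by
    change e2 (e1 RatFunc.X) = t
    have : e1 RatFunc.X = AdjoinSimple.gen k t := by
      rw [← RatFunc.algebraMap_X]
      change RatFunc.algEquivOfTranscendental t htt
        (algebraMap (Polynomial _) (RatFunc _) Polynomial.X) = _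
      rw [RatFunc.algEquivOfTranscendental_algebraMap, Polynomial.aeval_X]
    rw [this]
    rfl
  let e4 : RatFunc k ≃ₐ[k] k⟮ψ⟯ := RatFunc.algEquivOfTranscendental ψ hψ
  have he4 : e4 RatFunc.X = AdjoinSimple.gen k ψ := by
    rw [← RatFunc.algebraMap_X]
    change RatFunc.algEquivOfTranscendental ψ hψ
      (algebraMap (Polynomial _) (RatFunc _) Polynomial.X) = _
    rw [RatFunc.algEquivOfTranscendental_algebraMap, Polynomial.aeval_X]
  refine ⟨(k⟮ψ⟯.val.comp e4.toAlgHom).comp e3.symm.toAlgHom, ?_⟩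
  change ((e4 (e3.symm t) : k⟮ψ⟯) : RatFunc k) = ψ
  rw [← he3, e3.symm_apply_apply, he4]
  rfl

end

section

variable {k : Type} [Field k] [CharZero k] [IsAlgClosed k]

/-- polynomials are regular at the finite places -/
theorem reg_poly {q : Place k (RatFunc k)} (hq : 0 ≤ q.ord RatFunc.X) (P : k[X]) :
    q.Reg (algebraMap k[X] (RatFunc k) P) := by
  induction P using Polynomial.induction_on' with
  | add p q' hp hq' => rw [map_add]; exact q.reg_add hp hq'
  | monomial n a =>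
    rw [← C_mul_X_pow_eq_monomial, map_mul, map_pow, RatFunc.algebraMap_C, RatFunc.algebraMap_X]
    have h1 : q.Reg (RatFunc.X : RatFunc k) := Or.inr hq
    have h2 : q.Reg ((RatFunc.X : RatFunc k) ^ n) := by
      induction n with
      | zero => rw [pow_zero]; exact q.reg_one
      | succ n ih => rw [pow_succ]; exact q.reg_mul ih h1
    exact q.reg_mul (q.reg_const a) h2

theorem ord_nonneg {q : Place k (RatFunc k)} (hq : 0 ≤ q.ord RatFunc.X) (P : k[X]) :
    0 ≤ q.ord (algebraMap k[X] (RatFunc k) P) := by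
  rcases reg_poly hq P with h | h
  · rw [h, q.ord_zero]
  · exact h

theorem ord_cop {q : Place k (RatFunc k)} (hq : 0 ≤ q.ord RatFunc.X) {A B : k[X]}
    (h : IsCoprime A B) (hA : 0 < q.ord (algebraMap k[X] (RatFunc k) A)) :
    q.ord (algebraMap k[X] (RatFunc k) B) = 0 := by
  by_contra hB
  have hB' : 0 < q.ord (algebraMap k[X] (RatFunc k) B) := by
    have := ord_nonneg hq B
    omega
  obtain ⟨a, b, hab⟩ := h
  have h1 := congrArg (algebraMap k[X] (RatFunc k)) hab
  rw [map_add, map_mul, map_mul, map_one] at h1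
  have h2 : Ge q (0 + 1) (algebraMap k[X] (RatFunc k) a * algebraMap k[X] (RatFunc k) A) :=
    Ge.mul (reg_poly hq a) (Or.inr (by omega))
  have h3 : Ge q (0 + 1) (algebraMap k[X] (RatFunc k) b * algebraMap k[X] (RatFunc k) B) :=
    Ge.mul (reg_poly hq b) (Or.inr (by omega))
  have h4 := h2.add h3
  rw [h1] at h4
  rcases h4 with h4 | h4
  · exact one_ne_zero h4
  · rw [q.ord_one] at h4
    omega

/-- a nonconstant polynomial has a zero -/
theorem exists_zero_place {A : k[X]} (hA : 0 < A.natDegree) :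
    ∃ q : Place k (RatFunc k), 0 ≤ q.ord RatFunc.X ∧
      0 < q.ord (algebraMap k[X] (RatFunc k) A) := by
  obtain ⟨a, ha⟩ := IsAlgClosed.exists_root A (fun h =>
    hA.ne' (natDegree_eq_zero_iff_degree_le_zero.2 h.le))
  obtain ⟨B, hB⟩ := dvd_iff_isRoot.2 ha
  have htop : k⟮(RatFunc.X : RatFunc k)⟯ = ⊤ := RatFunc.adjoin_X
  obtain ⟨q, hq, -⟩ := zero_unique (top_sub htop a)
  have hX : Ge q 0 (RatFunc.X : RatFunc k) := by
    have h1 : Ge q 0 ((RatFunc.X : RatFunc k) - algebraMap k _ a) := Or.inr (by omega)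
    have h2 := h1.add (Ge.const (P := q) a)
    rwa [sub_add_cancel] at h2
  have hX' : 0 ≤ q.ord RatFunc.X := hX.resolve_left RatFunc.X_ne_zero
  refine ⟨q, hX', ?_⟩
  have hA0 : A ≠ 0 := by
    rintro rfl
    rw [natDegree_zero] at hA
    omega
  have hB0 : B ≠ 0 := by
    rintro rfl
    rw [mul_zero] at hB
    exact hA0 hB
  have h1 : algebraMap k[X] (RatFunc k) (X - Polynomial.C a) =
      RatFunc.X - algebraMap k (RatFunc k) a := by
    rw [map_sub, RatFunc.algebraMap_X, RatFunc.algebraMap_C]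
    rfl
  have h2 : (RatFunc.X : RatFunc k) - algebraMap k (RatFunc k) a ≠ 0 := by
    intro h
    rw [h, q.ord_zero] at hq
    omega
  rw [hB, map_mul, q.ord_mul (by rw [h1]; exact h2)
    ((map_ne_zero_iff _ (RatFunc.algebraMap_injective k)).2 hB0), h1, hq]
  have := ord_nonneg hX' B
  omega

theorem map_ne {A : k[X]} (hA : 0 < A.natDegree) : algebraMap k[X] (RatFunc k) A ≠ 0 := by
  have hA0 : A ≠ 0 := by
    rintro rfl
    rw [natDegree_zero] at hA
    omega
  exact (map_ne_zero_iff _ (RatFunc.algebraMap_injective k)).2 hA0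

variable {C : Type} [Field C] [Algebra k C] [IsFF k C]

theorem ord_gen {t : C} (ht : k⟮t⟯ = ⊤) {p : Place k C} (hp : 0 < p.ord t) : p.ord t = 1 := by
  obtain ⟨P, hP, hP'⟩ := zero_unique ht
  rw [hP' p hp]
  exact hP

theorem ord_gen' {t : C} (ht : k⟮t⟯ = ⊤) {p : Place k C} (hp : p.ord t < 0) : p.ord t = -1 := by
  obtain ⟨P, hP, hP'⟩ := pole_unique ht
  rw [hP' p hp]
  exact hP

/-- the property of the covering -/
def Good (f : Place k C → ℕ) (ι : C →ₐ[k] RatFunc k) : Prop :=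
  ∀ q : Place k (RatFunc k), 0 ≤ q.ord RatFunc.X → ∀ (p : Place k C) (e : ℕ), 0 < e →
      (∀ g, q.ord (ι g) = e * p.ord g) → f p ≠ 0 ∧ f p ∣ e

/-- coverings from coprime polynomials -/
theorem cover_three (hrat : ∃ t : C, k⟮t⟯ = ⊤) {p1 p2 p3 : Place k C} (h12 : p1 ≠ p2)
    (h13 : p1 ≠ p3) (h23 : p2 ≠ p3) (f : Place k C → ℕ)
    (hf : ∀ p, p ≠ p1 → p ≠ p2 → p ≠ p3 → f p = 1) (h1 : 0 < f p1) (h2 : 0 < f p2)
    (h3 : 0 < f p3) (hsol : Sol k (f p1) (f p2) (f p3)) : ∃ ι : C →ₐ[k] RatFunc k, Good f ι := by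
  obtain ⟨t, ht, ht1, ht2, ht3⟩ := exists_three hrat h12 h13 h23
  obtain ⟨A, B, D, h0, hAB, hAD, hBD, hA, hB, hD⟩ := hsol
  have hA0 := map_ne hA
  have hB0 := map_ne hB
  have hD0 := map_ne hD
  set A' := algebraMap k[X] (RatFunc k) A with hA'
  set B' := algebraMap k[X] (RatFunc k) B with hB'
  set D' := algebraMap k[X] (RatFunc k) D with hD'
  have hrel : A' ^ f p1 + B' ^ f p2 + D' ^ f p3 = 0 := by
    rw [hA', hB', hD', ← map_pow, ← map_pow, ← map_pow, ← map_add, ← map_add, h0, map_zero]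
  let ψ : RatFunc k := -(A' ^ f p1 / B' ^ f p2)
  have hψ1 : ψ - 1 = D' ^ f p3 / B' ^ f p2 := by
    have hBp : B' ^ f p2 ≠ 0 := pow_ne_zero _ hB0
    change -(A' ^ f p1 / B' ^ f p2) - 1 = _
    rw [eq_div_iff hBp, sub_mul, neg_mul, div_mul_cancel₀ _ hBp]
    linear_combination -hrel
  have hordψ : ∀ q : Place k (RatFunc k), q.ord ψ = f p1 * q.ord A' - f p2 * q.ord B' := by
    intro q
    change q.ord (-(A' ^ f p1 / B' ^ f p2)) = _
    rw [q.ord_neg, q.ord_div (pow_ne_zero _ hA0) (pow_ne_zero _ hB0), q.ord_pow, q.ord_pow]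
  have hordψ1 : ∀ q : Place k (RatFunc k), q.ord (ψ - 1) = f p3 * q.ord D' - f p2 * q.ord B' := by
    intro q
    rw [hψ1, q.ord_div (pow_ne_zero _ hD0) (pow_ne_zero _ hB0), q.ord_pow, q.ord_pow]
  have hf1 : (0 : ℤ) < f p1 := by exact_mod_cast h1
  have hf2 : (0 : ℤ) < f p2 := by exact_mod_cast h2
  have hf3 : (0 : ℤ) < f p3 := by exact_mod_cast h3
  have htr : Transcendental k ψ := by
    obtain ⟨q, hq, hqA⟩ := exists_zero_place hA
    refine q.transcendental_of_ord_ne ?_
    rw [hordψ, ord_cop hq hAB hqA, mul_zero, sub_zero]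
    exact (mul_pos hf1 hqA).ne'
  obtain ⟨ι, hι⟩ := exists_iota ht htr
  refine ⟨ι, fun q hq p e he hpe => ?_⟩
  have he' : (0 : ℤ) < e := by exact_mod_cast he
  have hnA := ord_nonneg hq A
  have hnB := ord_nonneg hq B
  have hnD := ord_nonneg hq D
  rw [← hA'] at hnA
  rw [← hB'] at hnB
  rw [← hD'] at hnD
  have hdvd : ∀ (n : ℕ) (x : ℤ), (e : ℤ) = n * x → n ∣ e := by
    intro n x hx
    have h4 : (n : ℤ) ∣ e := ⟨x, hx⟩
    exact_mod_cast h4
  by_cases hp1 : p = p1
  · subst hp1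
    have h4 := hpe t
    rw [hι, hordψ, ord_gen ht ht1, mul_one] at h4
    have h5 : 0 < q.ord A' := by
      by_contra hcon
      have h6 : q.ord A' = 0 := by omega
      rw [h6, mul_zero, zero_sub] at h4
      have := mul_nonneg hf2.le hnB
      omega
    rw [ord_cop hq hAB h5, mul_zero, sub_zero] at h4
    exact ⟨h1.ne', hdvd _ _ h4.symm⟩
  by_cases hp2 : p = p2
  · subst hp2
    have h4 := hpe t
    rw [hι, hordψ, ord_gen' ht ht2] at h4
    have h5 : 0 < q.ord B' := by
      by_contra hcon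
      have h6 : q.ord B' = 0 := by omega
      rw [h6, mul_zero, sub_zero] at h4
      have := mul_nonneg hf1.le hnA
      omega
    rw [ord_cop hq hAB.symm h5, mul_zero, zero_sub] at h4
    exact ⟨h2.ne', hdvd _ (q.ord B') (by linarith)⟩
  by_cases hp3 : p = p3
  · subst hp3
    have h4 := hpe (t - 1)
    have h5 : p.ord (t - 1) = 1 := by
      have h6 := top_sub ht 1
      rw [map_one] at h6
      exact ord_gen h6 ht3
    rw [map_sub, map_one, hι, hordψ1, h5, mul_one] at h4
    have h6 : 0 < q.ord D' := by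
      by_contra hcon
      have h6 : q.ord D' = 0 := by omega
      rw [h6, mul_zero, zero_sub] at h4
      have := mul_nonneg hf2.le hnB
      omega
    rw [ord_cop hq hBD.symm h6, mul_zero, sub_zero] at h4
    exact ⟨h3.ne', hdvd _ _ h4.symm⟩
  rw [hf p hp1 hp2 hp3]
  exact ⟨one_ne_zero, one_dvd _⟩

/-- at most two special points -/
theorem cover_two (hrat : ∃ t : C, k⟮t⟯ = ⊤) {p1 p2 : Place k C} (h12 : p1 ≠ p2)
    (f : Place k C → ℕ) (hf : ∀ p, p ≠ p1 → p ≠ p2 → f p = 1) (h1 : 0 < f p1) :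
    ∃ ι : C →ₐ[k] RatFunc k, Good f ι := by
  obtain ⟨t, ht, ht1, ht2⟩ := exists_zero_pole hrat h12
  have hX : (RatFunc.X : RatFunc k) ≠ 0 := RatFunc.X_ne_zero
  have htr : Transcendental k ((RatFunc.X : RatFunc k) ^ f p1) := by
    obtain ⟨q, hq, -⟩ := zero_unique (k := k) (x := (RatFunc.X : RatFunc k)) RatFunc.adjoin_X
    refine q.transcendental_of_ord_ne ?_
    rw [q.ord_pow, hq, mul_one]
    exact_mod_cast h1.ne'
  obtain ⟨ι, hι⟩ := exists_iota ht htr
  refine ⟨ι, fun q hq p e he hpe => ?_⟩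
  have he' : (0 : ℤ) < e := by exact_mod_cast he
  have h4 := hpe t
  rw [hι, q.ord_pow] at h4
  by_cases hp1 : p = p1
  · subst hp1
    rw [ord_gen ht ht1, mul_one] at h4
    refine ⟨h1.ne', ?_⟩
    have h5 : ((f p : ℕ) : ℤ) ∣ e := ⟨_, h4.symm⟩
    exact_mod_cast h5
  by_cases hp2 : p = p2
  · subst hp2
    rw [ord_gen' ht ht2] at h4
    have h5 : (0 : ℤ) ≤ f p1 * q.ord RatFunc.X := mul_nonneg (by positivity) hq
    omega
  rw [hf p hp1 hp2]
  exact ⟨one_ne_zero, one_dvd _⟩

/-- **Spherical orbifold curves are covered by `A¹`.** -/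
theorem cover (hrat : ∃ t : C, k⟮t⟯ = ⊤) (f : Place k C → ℕ) (hfin : {p | f p ≠ 1}.Finite)
    (hsum : ∀ F : Finset (Place k C), ∑ p ∈ F, (1 - 1 / (f p : ℚ)) < 2) :
    ∃ ι : C →ₐ[k] RatFunc k, Good f ι := by
  classical
  obtain ⟨t, ht⟩ := hrat
  obtain ⟨P0, hP0, -⟩ := zero_unique ht
  obtain ⟨P1, hP1, -⟩ := pole_unique ht
  have hP01 : P0 ≠ P1 := by
    rintro rfl
    omega
  have hother : ∀ p : Place k C, ∃ p', p' ≠ p := by
    intro p
    by_cases h : P0 = p
    · exact ⟨P1, fun h' => hP01 (h.trans h'.symm)⟩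
    · exact ⟨P0, h⟩
  set T := hfin.toFinset with hT
  have hTm : ∀ p, p ∈ T ↔ f p ≠ 1 := fun p => hfin.mem_toFinset
  have hhalf : ∀ p ∈ T, (1 / 2 : ℚ) ≤ 1 - 1 / (f p : ℚ) := by
    intro p hp
    have h1 := (hTm p).1 hp
    rcases Nat.eq_zero_or_pos (f p) with h2 | h2
    · rw [h2]
      norm_num
    · have h3 : (2 : ℚ) ≤ f p := by exact_mod_cast (by omega : 2 ≤ f p)
      have h4 : 1 / (f p : ℚ) ≤ 1 / 2 := by
        apply one_div_le_one_div_of_le two_pos h3
      linarith
  by_cases hc : T.card ≤ 2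
  · -- at most two special points
    have hex : ∃ p1 p2 : Place k C, p1 ≠ p2 ∧ (∀ p, p ≠ p1 → p ≠ p2 → f p = 1) ∧ 0 < f p1 := by
      have hcc : T.card = 0 ∨ T.card = 1 ∨ T.card = 2 := by omega
      rcases hcc with h | h | h
      · have hall : ∀ p, f p = 1 := by
          intro p
          by_contra hne
          have h1 := (hTm p).2 hne
          rw [Finset.card_eq_zero.1 h] at h1
          exact absurd h1 (Finset.notMem_empty _)
        exact ⟨P0, P1, hP01, fun p _ _ => hall p, by rw [hall]; exact one_pos⟩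
      · obtain ⟨p, hp⟩ := Finset.card_eq_one.1 h
        have hall : ∀ p', p' ≠ p → f p' = 1 := by
          intro p' hp'
          by_contra hne
          have h1 := (hTm p').2 hne
          rw [hp, Finset.mem_singleton] at h1
          exact hp' h1
        obtain ⟨p', hp'⟩ := hother p
        rcases Nat.eq_zero_or_pos (f p) with h2 | h2
        · exact ⟨p', p, hp', fun x _ hx => hall x hx, by rw [hall p' hp']; exact one_pos⟩
        · exact ⟨p, p', hp'.symm, fun x hx _ => hall x hx, h2⟩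
      · obtain ⟨p, p', hne, hp⟩ := Finset.card_eq_two.1 h
        have hall : ∀ x, x ≠ p → x ≠ p' → f x = 1 := by
          intro x hx hx'
          by_contra hne
          have h1 := (hTm x).2 hne
          rw [hp, Finset.mem_insert, Finset.mem_singleton] at h1
          rcases h1 with h1 | h1
          · exact hx h1
          · exact hx' h1
        rcases Nat.eq_zero_or_pos (f p) with h2 | h2
        · refine ⟨p', p, hne.symm, fun x hx hx' => hall x hx' hx, ?_⟩
          rcases Nat.eq_zero_or_pos (f p') with h3 | h3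
          · have h4 := hsum {p, p'}
            rw [Finset.sum_pair hne, h2, h3] at h4
            norm_num at h4
          · exact h3
        · exact ⟨p, p', hne, hall, h2⟩
    obtain ⟨p1, p2, h12, hall, hpos⟩ := hex
    exact cover_two ⟨t, ht⟩ h12 f hall hpos
  · obtain ⟨p1, h1, p2, h2, p3, h3, h12, h13, h23⟩ :=
      Finset.two_lt_card.1 (not_le.1 hc)
    have hall : ∀ p, p ≠ p1 → p ≠ p2 → p ≠ p3 → f p = 1 := by
      intro p hp1 hp2 hp3
      by_contra hne
      have h4 := hsum {p, p1, p2, p3}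
      rw [Finset.sum_insert (by simp [hp1, hp2, hp3]), Finset.sum_insert (by simp [h12, h13]),
        Finset.sum_pair h23] at h4
      have := hhalf p ((hTm p).2 hne)
      have := hhalf p1 h1
      have := hhalf p2 h2
      have := hhalf p3 h3
      linarith
    have h4 := hsum {p1, p2, p3}
    rw [Finset.sum_insert (by simp [h12, h13]), Finset.sum_pair h23] at h4
    have hge : ∀ p ∈ T, (f p = 0 → False) → 2 ≤ f p := by
      intro p hp h0
      have h5 := (hTm p).1 hp
      have h6 : f p ≠ 0 := h0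
      omega
    have e1 := hhalf p1 h1
    have e2 := hhalf p2 h2
    have e3 := hhalf p3 h3
    have f1 : 2 ≤ f p1 := hge p1 h1 (fun h => by
      rw [h] at h4
      norm_num at h4
      norm_num at e2 e3
      linarith)
    have f2 : 2 ≤ f p2 := hge p2 h2 (fun h => by
      rw [h] at h4
      norm_num at h4
      norm_num at e1 e3
      linarith)
    have f3 : 2 ≤ f p3 := hge p3 h3 (fun h => by
      rw [h] at h4
      norm_num at h4
      norm_num at e1 e2
      linarith)
    refine cover_three ⟨t, ht⟩ h12 h13 h23 f hall (by omega) (by omega) (by omega)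
      (sol_all f1 f2 f3 ?_)
    have g1 : (0 : ℚ) < f p1 := by exact_mod_cast (by omega : 0 < f p1)
    have g2 : (0 : ℚ) < f p2 := by exact_mod_cast (by omega : 0 < f p2)
    have g3 : (0 : ℚ) < f p3 := by exact_mod_cast (by omega : 0 < f p3)
    have h5 : (1 : ℚ) < 1 / (f p1 : ℚ) + 1 / (f p2 : ℚ) + 1 / (f p3 : ℚ) := by linarith
    have h6 : 1 / (f p1 : ℚ) + 1 / (f p2 : ℚ) + 1 / (f p3 : ℚ) =
        (f p2 * f p3 + f p1 * f p3 + f p1 * f p2) / (f p1 * f p2 * f p3) := by
      field_simp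
    rw [h6, lt_div_iff₀ (by positivity), one_mul] at h5
    exact_mod_cast h5

end

end Pool.Agent.J4.H11.CX
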