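import Pool.Agent.J4.H11.CX.Form
import Pool.Agent.J4.H11.TQ.Main

/-! Curves `A¹` in the fibration over a curve covered by `A¹`. -/

set_option autoImplicit false
set_option linter.overlappingInstances false
set_option linter.unusedSectionVars false
set_option maxHeartbeats 4000000
set_option synthInstance.maxHeartbeats 400000

open FF IntermediateField Pool.Agent.W619.PQ Pool.Agent.W603.LV Pool.Agent.R885
  Pool.Agent.J4.H11.TQ

namespace Pool.Agent.J4.H11.CX

section

variable {k : Type*} [Field k] [CharZero k] [IsAlgClosed k]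
  {E : Type*} [Field E] [Algebra k E] [IsFF k E]

/-- functions with prescribed orders at the finite places of a rational function field -/
theorem exists_div {x : E} (hx : k⟮x⟯ = ⊤) (h : Place k E → ℤ) (hfin : {q | h q ≠ 0}.Finite) :
    ∃ g : E, g ≠ 0 ∧ ∀ q : Place k E, 0 ≤ q.ord x → q.ord g = h q := by
  classical
  have ht := transcendental_of_top hx
  obtain ⟨D, hD, hDx⟩ := exists_ddx ht
  have ha : ∀ Q : Place k E, ∃ a : k, 0 ≤ Q.ord x → Q.ord (x - algebraMap k E a) = 1 ∧
      ∀ Q' : Place k E, 0 < Q'.ord (x - algebraMap k E a) → Q' = Q := by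
    intro Q
    by_cases hQ : 0 ≤ Q.ord x
    · obtain ⟨-, a, ha⟩ := vo_finite_place hx hD hDx Q hQ
      exact ⟨a, fun _ => ha⟩
    · exact ⟨0, fun h => absurd h hQ⟩
  choose a ha using ha
  have hne : ∀ q, (x - algebraMap k E (a q)) ≠ 0 := fun q => sub_const_ne ht _
  refine ⟨∏ q ∈ hfin.toFinset.filter (fun q => 0 ≤ q.ord x), (x - algebraMap k E (a q)) ^ h q,
    Finset.prod_ne_zero_iff.2 fun q _ => zpow_ne_zero _ (hne q), fun Q hQ => ?_⟩
  rw [ord_prod _ _ _ fun q _ => zpow_ne_zero _ (hne q)]
  have h1 : ∀ q ∈ hfin.toFinset.filter (fun q => 0 ≤ q.ord x),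
      Q.ord ((x - algebraMap k E (a q)) ^ h q) = if q = Q then h q else 0 := by
    intro q hq
    have hq0 := (Finset.mem_filter.1 hq).2
    rw [Q.ord_zpow]
    by_cases hqQ : q = Q
    · subst hqQ
      rw [if_pos rfl, (ha q hq0).1, mul_one]
    · rw [if_neg hqQ]
      have h2 : Ge Q 0 (x - algebraMap k E (a q)) :=
        Ge.sub (Or.inr hQ) (Ge.const _)
      have h3 := h2.resolve_left (hne q)
      have h4 : ¬ 0 < Q.ord (x - algebraMap k E (a q)) := fun h =>
        hqQ ((ha q hq0).2 Q h).symm
      have h5 : Q.ord (x - algebraMap k E (a q)) = 0 := by omega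
      rw [h5, mul_zero]
  rw [Finset.sum_congr rfl h1, Finset.sum_ite_eq']
  split_ifs with h2
  · rfl
  · by_contra h3
    apply h2
    rw [Finset.mem_filter]
    exact ⟨hfin.mem_toFinset.2 (fun h => h3 h.symm), hQ⟩

end

section

variable {R N : Type} [Field R] [Field N] [Algebra R N] {r : ℕ}

theorem scale_ind {Z : Fin r → N} (hZ : AlgebraicIndependent R Z) {a : Fin r → R}
    (ha : ∀ i, a i ≠ 0) : AlgebraicIndependent R fun i => algebraMap R N (a i) * Z i := by
  let ρ : MvPolynomial (Fin r) R →ₐ[R] MvPolynomial (Fin r) R :=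
    MvPolynomial.aeval fun i => MvPolynomial.C (a i) * MvPolynomial.X i
  let ρ' : MvPolynomial (Fin r) R →ₐ[R] MvPolynomial (Fin r) R :=
    MvPolynomial.aeval fun i => MvPolynomial.C (a i)⁻¹ * MvPolynomial.X i
  have h1 : ρ'.comp ρ = AlgHom.id R _ := by
    apply MvPolynomial.algHom_ext
    intro i
    simp only [ρ, ρ', AlgHom.comp_apply, MvPolynomial.aeval_X, map_mul, MvPolynomial.algHom_C,
      AlgHom.id_apply]
    rw [MvPolynomial.algebraMap_eq, ← mul_assoc, ← map_mul, mul_inv_cancel₀ (ha i), map_one,
      one_mul]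
  have h2 : Function.Injective ρ := by
    intro x y hxy
    have h3 := congrArg ρ' hxy
    have h4 : ∀ x, ρ' (ρ x) = x := fun x => by
      have := congrArg (fun f : MvPolynomial (Fin r) R →ₐ[R] MvPolynomial (Fin r) R => f x) h1
      exact this
    rwa [h4, h4] at h3
  have h3 : MvPolynomial.aeval (fun i => algebraMap R N (a i) * Z i) =
      (MvPolynomial.aeval Z).comp ρ := by
    apply MvPolynomial.algHom_ext
    intro i
    simp only [ρ, AlgHom.comp_apply, MvPolynomial.aeval_X, map_mul, MvPolynomial.algHom_C]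
  rw [algebraicIndependent_iff_injective_aeval, h3, AlgHom.coe_comp]
  exact Function.Injective.comp (algebraicIndependent_iff_injective_aeval.1 hZ) h2

variable (R r) in
/-- the variables -/
noncomputable def ZZ (i : Fin r) : FractionRing (MvPolynomial (Fin r) R) :=
  algebraMap (MvPolynomial (Fin r) R) _ (MvPolynomial.X i)

theorem ZZ_ind : AlgebraicIndependent R (ZZ R r) := by
  rw [algebraicIndependent_iff_injective_aeval]
  have h1 : MvPolynomial.aeval (ZZ R r) = IsScalarTower.toAlgHom R (MvPolynomial (Fin r) R)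
      (FractionRing (MvPolynomial (Fin r) R)) := by
    apply MvPolynomial.algHom_ext
    intro i
    rw [MvPolynomial.aeval_X]
    rfl
  rw [h1]
  exact IsFractionRing.injective (MvPolynomial (Fin r) R) _

theorem ZZ_gen : IntermediateField.adjoin R (Set.range (ZZ R r)) = ⊤ := by
  rw [eq_top_iff]
  intro x _
  obtain ⟨a, b, -, rfl⟩ := IsFractionRing.div_surjective (A := MvPolynomial (Fin r) R) x
  have key : ∀ p : MvPolynomial (Fin r) R, algebraMap _
      (FractionRing (MvPolynomial (Fin r) R)) p ∈
        IntermediateField.adjoin R (Set.range (ZZ R r)) := by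
    intro p
    induction p using MvPolynomial.induction_on with
    | C c =>
      rw [← MvPolynomial.algebraMap_eq, ← IsScalarTower.algebraMap_apply]
      exact IntermediateField.algebraMap_mem _ c
    | add p q hp hq => rw [map_add]; exact add_mem hp hq
    | mul_X p i hp =>
      rw [map_mul]
      exact mul_mem hp (IntermediateField.subset_adjoin _ _ ⟨i, rfl⟩)
  exact div_mem (key a) (key b)

theorem scale_gen {Z : Fin r → N} (hZ : IntermediateField.adjoin R (Set.range Z) = ⊤)
    {a : Fin r → R} (ha : ∀ i, a i ≠ 0) :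
    IntermediateField.adjoin R (Set.range fun i => algebraMap R N (a i) * Z i) = ⊤ := by
  rw [eq_top_iff, ← hZ, IntermediateField.adjoin_le_iff]
  rintro _ ⟨i, rfl⟩
  have h1 : Z i = algebraMap R N (a i)⁻¹ * (algebraMap R N (a i) * Z i) := by
    rw [← mul_assoc, ← map_mul, inv_mul_cancel₀ (ha i), map_one, one_mul]
  rw [h1]
  exact mul_mem (IntermediateField.algebraMap_mem _ _)
    (IntermediateField.subset_adjoin _ _ ⟨i, rfl⟩)

/-- an embedding of a purely transcendental extension -/
theorem exists_hom {k C K : Type} [Field k] [Field C] [Algebra k C] [Field K] [Algebra k K]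
    [Algebra C K] [IsScalarTower k C K] {z : Fin r → K} (hz : AlgebraicIndependent C z)
    (hgen : IntermediateField.adjoin C (Set.range z) = ⊤) [Algebra k R] [Algebra k N]
    [IsScalarTower k R N] (ι : C →ₐ[k] R) {Z : Fin r → N} (hZ : AlgebraicIndependent R Z) :
    ∃ φ : K →ₐ[k] N, (∀ c : C, φ (algebraMap C K c) = algebraMap R N (ι c)) ∧
      ∀ i, φ (z i) = Z i := by
  let _ : Algebra C R := (ι : C →+* R).toAlgebra
  let _ : Algebra C N := ((algebraMap R N).comp (ι : C →+* R)).toAlgebra
  have t1 : IsScalarTower C R N := IsScalarTower.of_algebraMap_eq fun _ => rfl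
  have t2 : IsScalarTower k C N := IsScalarTower.of_algebraMap_eq fun c => by
    change _ = algebraMap R N (ι (algebraMap k C c))
    rw [ι.commutes, ← IsScalarTower.algebraMap_apply]
  have hZC : AlgebraicIndependent C Z := by
    rw [algebraicIndependent_iff_injective_aeval]
    have h1 : ∀ p : MvPolynomial (Fin r) C, MvPolynomial.aeval Z p =
        MvPolynomial.aeval Z (MvPolynomial.map (algebraMap C R) p) := by
      intro p
      rw [MvPolynomial.aeval_map_algebraMap]
    intro p q hpq
    rw [h1, h1] at hpq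
    have h2 := (algebraicIndependent_iff_injective_aeval.1 hZ) hpq
    exact MvPolynomial.map_injective _ (algebraMap C R).injective h2
  let e1 := hz.aevalEquivField
  let e2 : IntermediateField.adjoin C (Set.range z) ≃ₐ[C] K := (equivOfEq hgen).trans topEquiv
  let e3 := hZC.aevalEquivField
  let φ0 : K →ₐ[C] N := ((IntermediateField.adjoin C (Set.range Z)).val.comp
    e3.toAlgHom).comp (e2.symm.trans e1.symm).toAlgHom
  refine ⟨φ0.restrictScalars k, fun c => φ0.commutes c, fun i => ?_⟩
  have h1 : e2.symm (z i) = e1 (algebraMap (MvPolynomial (Fin r) C) _ (MvPolynomial.X i)) := by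
    apply e2.injective
    rw [e2.apply_symm_apply]
    change z i = ((e1 (algebraMap (MvPolynomial (Fin r) C) _ (MvPolynomial.X i)) :
      IntermediateField.adjoin C (Set.range z)) : K)
    rw [AlgebraicIndependent.aevalEquivField_algebraMap_apply_coe, MvPolynomial.aeval_X]
  change ((e3 (e1.symm (e2.symm (z i))) : IntermediateField.adjoin C (Set.range Z)) : N) = Z i
  rw [h1, e1.symm_apply_apply, AlgebraicIndependent.aevalEquivField_algebraMap_apply_coe,
    MvPolynomial.aeval_X]

end

end Pool.Agent.J4.H11.CX
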