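import Pool.Agent.J4.H11.CX.Theta

/-! The form of a variety with a torus action of complexity one. -/

set_option autoImplicit false
set_option linter.overlappingInstances false
set_option linter.unusedSectionVars false
set_option maxHeartbeats 4000000
set_option synthInstance.maxHeartbeats 400000

open FF IntermediateField Pool.Agent.W619.PQ Pool.Agent.W603.LV Pool.Agent.R885
  Pool.Agent.W619.Y Pool.Agent.W619.TW Pool.Agent.W602.GT Pool.Agent.J4.H11.TQ

namespace Pool.Agent.J4.H11.CX

section

variable {k C K : Type} [Field k] [Field C] [Algebra k C] [Field K] [Algebra k K] [Algebra C K]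
  [IsScalarTower k C K] {r : ℕ}

/-- the matrix of the logarithmic form -/
noncomputable def JJ (t : C) (D0 : Derivation k C C) (z : Fin r → K)
    (D : Fin (r + 1) → Derivation k K K) : Matrix (Fin (r + 1)) (Fin (r + 1)) K :=
  Matrix.of fun i => (Fin.cons (D i (algebraMap C K t) / algebraMap C K (D0 t))
    (fun j => D i (z j) / z j) : Fin (r + 1) → K)

theorem JJ_zero (t : C) (D0 : Derivation k C C) (z : Fin r → K)
    (D : Fin (r + 1) → Derivation k K K) (i : Fin (r + 1)) :
    JJ t D0 z D i 0 = D i (algebraMap C K t) / algebraMap C K (D0 t) := rfl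

theorem JJ_succ (t : C) (D0 : Derivation k C C) (z : Fin r → K)
    (D : Fin (r + 1) → Derivation k K K) (i : Fin (r + 1)) (j : Fin r) :
    JJ t D0 z D i j.succ = D i (z j) / z j := rfl

theorem JJ_lin (t : C) (D0 : Derivation k C C) (z : Fin r → K)
    (X : Matrix (Fin (r + 1)) (Fin (r + 1)) K) (D : Fin (r + 1) → Derivation k K K) :
    JJ t D0 z (fun i => ∑ l, X i l • D l) = X * JJ t D0 z D := by
  ext i j
  rw [Matrix.mul_apply]
  refine Fin.cases ?_ (fun j => ?_) j
  · rw [JJ_zero, Pool.Agent.W721.PG.EFF2.der_sum, Finset.sum_div]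
    refine Finset.sum_congr rfl fun l _ => ?_
    rw [JJ_zero, mul_div_assoc]
  · rw [JJ_succ, Pool.Agent.W721.PG.EFF2.der_sum, Finset.sum_div]
    refine Finset.sum_congr rfl fun l _ => ?_
    rw [JJ_succ, mul_div_assoc]

/-- the order of the determinant -/
theorem det_col (w : Place k K) (M : Matrix (Fin (r + 1)) (Fin (r + 1)) K) (a : ℤ)
    (h0 : ∀ i, Ge w a (M i 0)) (h1 : ∀ i (j : Fin r), Ge w 0 (M i j.succ)) : Ge w a M.det := by
  have h2 := ge_det_rows w M.transpose (Fin.cons a fun _ => 0) (fun i j => by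
    refine Fin.cases ?_ (fun i => ?_) i
    · rw [Fin.cons_zero]
      exact h0 j
    · rw [Fin.cons_succ]
      exact h1 j i)
  rw [Matrix.det_transpose, Fin.sum_univ_succ] at h2
  simpa using h2

variable [CharZero k] [IsFF k C]

theorem JJ_indep {t : C} (ht : Transcendental k t) {D0 : Derivation k C C} (hD0 : D0 t ≠ 0)
    {y : C} (hy : D0 y ≠ 0) (z : Fin r → K) (D : Fin (r + 1) → Derivation k K K) :
    JJ y D0 z D = JJ t D0 z D := by
  ext i j
  refine Fin.cases ?_ (fun j => ?_) j
  · rw [JJ_zero, JJ_zero, der_C ht hD0 (D i) y]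
    have h1 : algebraMap C K (D0 y) ≠ 0 := by simpa using hy
    rw [mul_div_assoc, div_self h1, mul_one]
  · rw [JJ_succ, JJ_succ]

variable [IsAlgClosed k]

/-- Logarithmic vector fields at a place over `p`. -/
theorem det_over {t : C} (ht : Transcendental k t) {D0 : Derivation k C C} (hD0 : D0 ≠ 0)
    (z : Fin r → K) {w : Place k K} {p : Place k C} {μ : ℕ}
    (hw : ∀ c : C, w.ord (algebraMap C K c) = μ * p.ord c)
    {D : Fin (r + 1) → Derivation k K K} (hD : ∀ i, DerLog w (D i)) :
    Ge w (μ * (1 - vo p D0)) (JJ t D0 z D).det := by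
  obtain ⟨y, hy0, hy⟩ := p.surj
  have hDy : D0 y ≠ 0 := der_pi_ne_zero hD0 p hy
  rw [← JJ_indep ht (der_ne_zero hD0 ht) hDy]
  refine det_col w _ _ (fun i => ?_) (fun i j => ?_)
  · rw [JJ_zero]
    have h1 : Ge w 0 (D i (algebraMap C K y) / algebraMap C K y) := hD i _
    have h2 : Ge w (μ * (1 - vo p D0)) (algebraMap C K y / algebraMap C K (D0 y)) := by
      right
      rw [w.ord_div (by simpa using hy0) (by simpa using hDy), hw, hw, hy, vo_eq p hy hD0]
      linarith
    have h3 := h1.mul h2
    rw [zero_add] at h3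
    have h4 : D i (algebraMap C K y) / algebraMap C K y *
        (algebraMap C K y / algebraMap C K (D0 y)) =
        D i (algebraMap C K y) / algebraMap C K (D0 y) := by
      have : algebraMap C K y ≠ 0 := by simpa using hy0
      field_simp
    rwa [h4] at h3
  · rw [JJ_succ]
    exact hD i _

/-- Logarithmic vector fields at a place which is trivial on `C`. -/
theorem det_triv {t : C} (ht : Transcendental k t) {D0 : Derivation k C C} (hD0 : D0 ≠ 0)
    (z : Fin r → K) {w : Place k K} (hw : ∀ c : C, w.ord (algebraMap C K c) = 0)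
    {D : Fin (r + 1) → Derivation k K K} (h : ∀ i, Ge w 0 (D i (algebraMap C K t)))
    (h' : ∀ i j, Ge w 0 (D i (z j) / z j)) : Ge w 0 (JJ t D0 z D).det := by
  have hDt := der_ne_zero hD0 ht
  refine det_col w _ _ (fun i => ?_) (fun i j => ?_)
  · rw [JJ_zero, div_eq_mul_inv]
    have h2 : Ge w 0 (algebraMap C K (D0 t))⁻¹ := by
      right
      rw [w.ord_inv, hw, neg_zero]
    have h3 := (h i).mul h2
    rwa [zero_add] at h3
  · rw [JJ_succ]
    exact h' i j

/-- a place is trivial on the subfield or lies over a place -/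
theorem triv_or_over (w : Place k K) : (∀ c : C, w.ord (algebraMap C K c) = 0) ∨
    ∃ (p : Place k C) (μ : ℕ), 0 < μ ∧ ∀ c : C, w.ord (algebraMap C K c) = μ * p.ord c := by
  by_cases h : ∀ c : C, w.ord (algebraMap C K c) = 0
  · exact Or.inl h
  · right
    push Not at h
    obtain ⟨f, hf⟩ := h
    exact exists_restrict w (algebraMap C K) (fun c hc => by
      rw [← IsScalarTower.algebraMap_apply]
      exact w.ord_const hc) hf

theorem exists_t : ∃ t : C, Transcendental k t := IsFF.exists_transcendental

/-- the transcendence basis -/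
theorem basis_cons {t : C} (ht : Transcendental k t) {z : Fin r → K}
    (hz : AlgebraicIndependent C z) (hgen : IntermediateField.adjoin C (Set.range z) = ⊤) :
    IsTranscendenceBasis k (Fin.cons (algebraMap C K t) z : Fin (r + 1) → K) := by
  have h1 := (IsFF.basis ht).sumElim_comp (basis_x hz hgen)
  let e : Fin (r + 1) ≃ Fin r ⊕ Unit := (finSuccEquiv r).trans (Equiv.optionEquivSumPUnit (Fin r))
  have h2 := (isTranscendenceBasis_equiv e).2 h1
  convert h2 using 1
  funext i
  refine Fin.cases ?_ (fun j => ?_) i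
  · simp [e]
  · simp [e]

/-- **The form.** -/
theorem kod_ge {z : Fin r → K} (hz : AlgebraicIndependent C z)
    (hgen : IntermediateField.adjoin C (Set.range z) = ⊤)
    {S : Place k C → ℕ → (Fin r → ℤ) → Prop} {H : (Fin r → ℤ) → Prop} (hH : ∀ u, H u → u = 0)
    {m : ℕ} (hm : 1 ≤ m) {D0 : Derivation k C C} (hD0 : D0 ≠ 0) {c : C} (hc : c ≠ 0)
    (hgood : ∀ q : Place k C, 0 ≤ q.ord c + m * (1 - vo q D0) ∧
      (m : ℤ) ≤ (mult S q) * (q.ord c + m * (1 - vo q D0)) ∨ (mult S q = 0 ∧
        0 ≤ q.ord c + m * (1 - vo q D0))) (hess : Algebra.EssFiniteType k K) :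
    Pool.Agent.W602.GT.KodGe k K (r + 1) (CBd z S H) 0 := by
  classical
  obtain ⟨t, ht⟩ := exists_t (k := k) (C := C)
  have hDt := der_ne_zero hD0 ht
  have hb := basis_cons (K := K) ht hz hgen
  have hn : Algebra.trdeg k K = (r + 1 : ℕ) := by
    rw [← hb.cardinalMk_eq_trdeg]
    simp
  have hz0 := x_ne hz
  have hcK : algebraMap C K c ≠ 0 := by simpa using hc
  let ω : (Fin (r + 1) → Derivation k K K) → K := fun D =>
    algebraMap C K c * (JJ t D0 z D).det ^ m
  have hplu : IsPluri m ω := by
    intro X D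
    change algebraMap C K c * (JJ t D0 z (fun i => ∑ l, X i l • D l)).det ^ m =
      X.det ^ m * (algebraMap C K c * (JJ t D0 z D).det ^ m)
    rw [JJ_lin, Matrix.det_mul]
    ring
  have hgood0 : ∀ q : Place k C, 0 ≤ q.ord c + m * (1 - vo q D0) := fun q => by
    rcases hgood q with h | h
    · exact h.1
    · exact h.2
  -- logarithmic vector fields over a place
  have hover : ∀ (w : Place k K) (p : Place k C) (μ : ℕ),
      (∀ c : C, w.ord (algebraMap C K c) = μ * p.ord c) →
      ∀ D : Fin (r + 1) → Derivation k K K, (∀ i, DerLog w (D i)) →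
      Ge w (μ * (p.ord c + m * (1 - vo p D0))) (ω D) := by
    intro w p μ hw D hD
    have h1 := (det_over ht hD0 z hw hD).pow m
    have h2 : Ge w (μ * p.ord c) (algebraMap C K c) := Or.inr (by rw [hw])
    refine (h2.mul h1).mono ?_
    apply le_of_eq
    ring
  have hne : ∃ D, ω D ≠ 0 := by
    obtain ⟨E, hE⟩ := Pool.Agent.W636.PG.exists_duals k K (r + 1) _ hb
    refine ⟨E, mul_ne_zero hcK (pow_ne_zero _ ?_)⟩
    have h1 : JJ t D0 z E = Matrix.diagonal (Fin.cons (algebraMap C K (D0 t))⁻¹
        (fun j => (z j)⁻¹) : Fin (r + 1) → K) := by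
      ext i j
      refine Fin.cases ?_ (fun j => ?_) j
      · have h2 := hE i 0
        rw [Fin.cons_zero] at h2
        rw [JJ_zero, h2, Matrix.diagonal_apply]
        by_cases hi : i = 0
        · rw [if_pos hi, if_pos hi, hi, Fin.cons_zero, one_div]
        · rw [if_neg hi, if_neg hi, zero_div]
      · have h2 := hE i j.succ
        rw [Fin.cons_succ] at h2
        rw [JJ_succ, h2, Matrix.diagonal_apply]
        by_cases hi : i = j.succ
        · rw [if_pos hi, if_pos hi, hi, Fin.cons_succ, one_div]
        · rw [if_neg hi, if_neg hi, zero_div]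
    rw [h1, Matrix.det_diagonal]
    refine Finset.prod_ne_zero_iff.2 fun i _ => ?_
    refine Fin.cases ?_ (fun j => ?_) i
    · rw [Fin.cons_zero]
      exact inv_ne_zero (by simpa using hDt)
    · rw [Fin.cons_succ]
      exact inv_ne_zero (hz0 j)
  obtain ⟨D1, hD1⟩ := hne
  refine ⟨m, hm, fun _ => ω, fun _ => ⟨hplu, ?_, ?_⟩, D1, hD1, ?_⟩
  · intro w _ D hD
    rcases triv_or_over (C := C) w with hw | ⟨p, μ, hμ, hw⟩
    · have h1 := (det_triv (D0 := D0) ht hD0 z hw (D := D) (fun i => ?_) (fun i j => hD i _)).pow m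
      · have h2 : Ge w 0 (algebraMap C K c) := Or.inr (by rw [hw])
        have h3 := h2.mul h1
        rw [mul_zero, zero_add] at h3
        exact h3
      · have ht0 : t ≠ 0 := by
          rintro rfl
          exact ht (isAlgebraic_zero)
        have h1 : Ge w 0 (D i (algebraMap C K t) / algebraMap C K t) := hD i _
        have h2 : Ge w 0 (algebraMap C K t) := Or.inr (by rw [hw])
        have h3 := h1.mul h2
        rw [zero_add, div_mul_cancel₀ _ (by simpa using ht0)] at h3
        exact h3
    · have h1 := hover w p μ hw D hD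
      refine h1.mono ?_
      have := hgood0 p
      positivity
  · intro w hdiv hbd D hD
    unfold CBd at hbd
    rw [not_not] at hbd
    rcases hbd with ⟨hw, hu⟩ | ⟨p, μ, hμ, hw, hu⟩
    · have hord : ∀ j, w.ord (z j) = 0 := fun j => congrFun (hH _ hu) j
      have h1 := (det_triv (D0 := D0) ht hD0 z hw (D := D) (fun i => ?_) (fun i j => ?_)).pow m
      · have h2 : Ge w 0 (algebraMap C K c) := Or.inr (by rw [hw])
        have h3 := h2.mul h1
        rw [mul_zero, zero_add] at h3
        exact h3
      · exact hD i _ (Or.inr (by rw [hw]))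
      · exact der_unit (hD i) (hord j)
    · have hml := mult_le hμ hu
      have hmp := mult_pos hμ hu
      obtain ⟨y, E, i0, hy, hE, hy1, hyr, hpres⟩ := pFRAME k K (r + 1) hn
        (fun y hy => fin_adj hess y hy) w hdiv
      have hy0 : y i0 ≠ 0 := by
        intro h0
        rw [h0, w.ord_zero] at hy1
        exact zero_ne_one hy1
      let d : Fin (r + 1) → K := fun i => if i = i0 then y i0 else 1
      let F : Fin (r + 1) → Derivation k K K := fun i => d i • E i
      have hdr : ∀ i, w.Reg (d i) := by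
        intro i
        by_cases hi : i = i0
        · simp only [d, if_pos hi]
          exact hyr i0
        · simp only [d, if_neg hi]
          exact w.reg_one
      have hFlog : ∀ i, DerLog w (F i) := by
        intro i
        refine log_of_pres w (F i) (fun f hf => ?_) hy0 hy1 ?_
        · exact w.reg_mul (hdr i) (hpres i f hf)
        · change w.Reg (d i * E i (y i0) / y i0)
          rw [hE]
          by_cases hi : i = i0
          · rw [if_pos hi, mul_one]
            have : d i = y i0 := if_pos hi
            rw [this, div_self hy0]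
            exact w.reg_one
          · rw [if_neg hi, mul_zero, zero_div]
            exact w.reg_zero
      have h1 := hover w p μ hw F hFlog
      have h2 : Ge w m (ω F) := by
        refine h1.mono ?_
        rcases hgood p with h3 | h3
        · refine h3.2.trans ?_
          exact mul_le_mul_of_nonneg_right (by exact_mod_cast hml) h3.1
        · omega
      -- comparison of the frames
      have hωF : ω F = (y i0) ^ m * ω E := by
        have h1 := hplu (Matrix.diagonal d) E
        have h2 : (fun i => ∑ j, Matrix.diagonal d i j • E j) = F := by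
          funext i
          rw [Finset.sum_eq_single i]
          · rw [Matrix.diagonal_apply_eq]
          · intro j _ hj
            rw [Matrix.diagonal_apply_ne _ (Ne.symm hj), zero_smul]
          · intro h
            exact absurd (Finset.mem_univ i) h
        rw [h2, Matrix.det_diagonal] at h1
        rw [h1]
        congr 2
        rw [Finset.prod_eq_single i0]
        · exact if_pos rfl
        · intro j _ hj
          exact if_neg hj
        · intro h
          exact absurd (Finset.mem_univ i0) h
      have hωE : w.Reg (ω E) := by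
        have h3 : w.ord ((y i0) ^ m) = m := by
          rw [w.ord_pow, hy1, mul_one]
        exact Ge.of_mul' (pow_ne_zero m hy0) h3 (by rw [zero_add, ← hωF]; exact h2)
      change w.Reg (ω D)
      rw [Pool.Agent.W636.PG.form_eq k K (r + 1) m y hy E hE ω hplu D]
      refine w.reg_mul ?_ hωE
      have h1 : Ge w 0 (Matrix.of fun i j => D i (y j)).det :=
        Pool.Agent.W619.PQ.ge_det w _ fun i j => hD i _ (hyr j)
      have h2 := h1.pow m
      rw [mul_zero] at h2
      exact h2
  · rw [algebraicIndependent_empty_type_iff]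
    exact (algebraMap k K).injective

theorem term_bd (a : ℕ) : (0 : ℚ) ≤ 1 - 1 / (a : ℚ) ∧ 1 - 1 / (a : ℚ) ≤ 1 := by
  rcases Nat.eq_zero_or_pos a with rfl | ha
  · norm_num
  · have h1 : (1 : ℚ) ≤ a := by exact_mod_cast ha
    have h2 : 1 / (a : ℚ) ≤ 1 := by
      rw [div_le_one (by linarith)]
      exact h1
    have h3 : 0 ≤ 1 / (a : ℚ) := by positivity
    constructor <;> linarith

/-- The logarithmic Kodaira dimension is at least zero if there is no horizontal divisor and the
orbifold quotient is not spherical. -/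
theorem kod_ge_of {z : Fin r → K} (hz : AlgebraicIndependent C z)
    (hgen : IntermediateField.adjoin C (Set.range z) = ⊤)
    {S : Place k C → ℕ → (Fin r → ℤ) → Prop} {H : (Fin r → ℤ) → Prop} (hH : ∀ u, H u → u = 0)
    (hfin : {p | ¬ S p 1 0}.Finite)
    (hnot : ¬ ((∃ t : C, k⟮t⟯ = ⊤) ∧ ∀ F : Finset (Place k C),
      ∑ p ∈ F, (1 - 1 / (mult S p : ℚ)) < 2)) (hess : Algebra.EssFiniteType k K) :
    Pool.Agent.W602.GT.KodGe k K (r + 1) (CBd z S H) 0 := by
  classical
  set T := hfin.toFinset with hT
  have hT1 : ∀ q, q ∉ T → mult S q = 1 := by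
    intro q hq
    have h1 : S q 1 0 := by
      by_contra h
      exact hq (hfin.mem_toFinset.2 h)
    exact mult_one h1
  have hS : ∀ q, q ∉ T → (1 : ℚ) - 1 / (mult S q : ℚ) = 0 := by
    intro q hq
    rw [hT1 q hq]
    norm_num
  have hsum : (0 : ℚ) ≤ canDeg k C + ∑ q ∈ T, (1 - 1 / (mult S q : ℚ)) := by
    have h0 : (0 : ℚ) ≤ ∑ q ∈ T, (1 - 1 / (mult S q : ℚ)) :=
      Finset.sum_nonneg fun q _ => (term_bd _).1
    by_cases hrat : ∃ t : C, k⟮t⟯ = ⊤
    · have h1 : ¬ ∀ F : Finset (Place k C), ∑ p ∈ F, (1 - 1 / (mult S p : ℚ)) < 2 := fun h =>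
        hnot ⟨hrat, h⟩
      push Not at h1
      obtain ⟨F, hF⟩ := h1
      obtain ⟨t, ht⟩ := hrat
      rw [canDeg_rational ht]
      have h2 : ∑ q ∈ F, (1 - 1 / (mult S q : ℚ)) ≤ ∑ q ∈ T, (1 - 1 / (mult S q : ℚ)) := by
        calc ∑ q ∈ F, (1 - 1 / (mult S q : ℚ)) ≤ ∑ q ∈ F ∪ T, (1 - 1 / (mult S q : ℚ)) :=
              Finset.sum_le_sum_of_subset_of_nonneg Finset.subset_union_left
                fun q _ _ => (term_bd _).1
          _ = ∑ q ∈ T, (1 - 1 / (mult S q : ℚ)) := by
              symm
              exact Finset.sum_subset Finset.subset_union_right fun q _ hq => hS q hq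
      push_cast
      linarith
    · have h1 : (0 : ℤ) ≤ canDeg k C := canDeg_nonneg hrat
      have h2 : (0 : ℚ) ≤ canDeg k C := by exact_mod_cast h1
      linarith
  obtain ⟨m, D0, c, hm, hD0, hc, hgood⟩ := Pool.Agent.W619.X.one_goodX (k := k) (E0 := C)
    (fun _ => False) (fun q => 1 - 1 / (mult S q : ℚ)) T hS (fun q => term_bd _) hsum
  refine kod_ge hz hgen hH hm hD0 hc (fun q => ?_) hess
  obtain ⟨h1, h2⟩ := hgood q
  rcases Nat.eq_zero_or_pos (mult S q) with h3 | h3
  · exact Or.inr ⟨h3, h1⟩
  · left
    refine ⟨h1, ?_⟩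
    have h4 := h2 not_false
    have h5 : (0 : ℚ) < mult S q := by exact_mod_cast h3
    have h6 : (m : ℚ) * (1 - (1 - 1 / (mult S q : ℚ))) = m / mult S q := by
      rw [sub_sub_cancel, mul_one_div]
    rw [h6, div_le_iff₀ h5] at h4
    have h7 : ((m : ℤ) : ℚ) ≤ ((mult S q * (q.ord c + m * (1 - vo q D0)) : ℤ) : ℚ) := by
      push_cast at h4 ⊢
      linarith
    exact_mod_cast h7

end

end Pool.Agent.J4.H11.CX
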