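import Pool.Agent.J4.H11.CX.Theta
import Pool.Agent.J4.H11.TQ.Main

/-! Horizontal divisors: the generic orbits closures are `A¹`-uniruled. -/

set_option autoImplicit false
set_option linter.overlappingInstances false
set_option linter.unusedSectionVars false
set_option maxHeartbeats 4000000
set_option synthInstance.maxHeartbeats 400000

open FF IntermediateField Pool.Agent.W619.PQ Pool.Agent.W603.LV Pool.Agent.R885
  Pool.Agent.J4.H11.TQ

namespace Pool.Agent.J4.H11.CX

section

variable {k C K : Type} [Field k] [Field C] [Algebra k C] [Field K] [Algebra k K] [Algebra C K]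
  [IsScalarTower k C K] {r : ℕ} [CharZero k] [IsFF k C]

/-- A horizontal divisor. -/
theorem a1_hor {z : Fin r → K} (hz : AlgebraicIndependent C z)
    (hgen : IntermediateField.adjoin C (Set.range z) = ⊤)
    {S : Place k C → ℕ → (Fin r → ℤ) → Prop} {H : (Fin r → ℤ) → Prop} (h0 : H 0)
    (hH : ∀ (m : ℕ) (v : Fin r → ℤ), 0 < m → (H (m • v) ↔ H v)) {v0 : Fin r → ℤ} (hv0 : H v0)
    (hne : v0 ≠ 0) :
    Pool.Agent.W619.PL.IsA1Uniruled k K (r + 1) (CBd z S H) := by
  classical
  have hchC : CharZero C := charZero_of_injective_algebraMap (algebraMap k C).injective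
  have hx0 := x_ne hz
  obtain ⟨u', m, huS, hm⟩ : ∃ u' m : Fin r → ℤ, H u' ∧ m ⬝ᵥ u' = 1 := by
    obtain ⟨d, u', m, hd, hu', hm⟩ := exists_primitive hne
    rcases lt_or_gt_of_ne hd with hd' | hd'
    · refine ⟨-u', -m, ?_, by rw [neg_dotProduct_neg, hm]⟩
      rw [← hH d.natAbs (-u') (by omega)]
      have : d.natAbs • (-u') = v0 := by
        funext i
        rw [hu' i, Pi.smul_apply, Pi.neg_apply, nsmul_eq_mul, mul_neg, ← neg_mul]
        congr 1
        omega
      rw [this]
      exact hv0
    · refine ⟨u', m, ?_, hm⟩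
      rw [← hH d.natAbs u' (by omega)]
      have : d.natAbs • u' = v0 := by
        funext i
        rw [hu' i, Pi.smul_apply, nsmul_eq_mul]
        congr 1
        omega
      rw [this]
      exact hv0
  obtain ⟨δ, hδ⟩ := exists_delta hz hgen u'
  have ht : Transcendental (F0 C z u' m) (mono z m) := by
    refine F0_trans hm hδ ?_
    rw [hδ, hm, Int.cast_one, one_mul]
    exact mono_ne hx0 m
  have htop := F0_top (k := C) hx0 hgen u' m
  let e1 : RatFunc (F0 C z u' m) ≃ₐ[F0 C z u' m] (F0 C z u' m)⟮mono z m⟯ :=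
    RatFunc.algEquivOfTranscendental (mono z m) ht
  let e2 : (F0 C z u' m)⟮mono z m⟯ ≃ₐ[F0 C z u' m] K := (equivOfEq htop).trans topEquiv
  let e3 : RatFunc (F0 C z u' m) ≃ₐ[F0 C z u' m] K := e1.trans e2
  have he3 : e3 RatFunc.X = mono z m := by
    change e2 (e1 RatFunc.X) = mono z m
    have : e1 RatFunc.X = AdjoinSimple.gen (F0 C z u' m) (mono z m) := by
      rw [← RatFunc.algebraMap_X]
      change RatFunc.algEquivOfTranscendental (mono z m) ht
        (algebraMap (Polynomial _) (RatFunc _) Polynomial.X) = _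
      rw [RatFunc.algEquivOfTranscendental_algebraMap, Polynomial.aeval_X]
    rw [this]
    rfl
  have hst : IsScalarTower k (F0 C z u' m) K := IsScalarTower.of_algebraMap_eq fun c => rfl
  have hst2 : IsScalarTower k (F0 C z u' m) (RatFunc (F0 C z u' m)) := inferInstance
  refine ⟨F0 C z u' m, inferInstance, inferInstance,
    ((e3.symm.restrictScalars k : K ≃ₐ[k] RatFunc (F0 C z u' m)) :
      K →ₐ[k] RatFunc (F0 C z u' m)), ?_, ?_, ?_⟩
  · have h1 : Algebra.EssFiniteType k C := IsFF.ess
    have h2 : Algebra.EssFiniteType C (F0 C z u' m) :=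
      (IntermediateField.essFiniteType_iff).2 (F0_fg u' m)
    exact Algebra.EssFiniteType.comp k C (F0 C z u' m)
  · have h1 : Algebra.trdeg k C = 1 := IsFF.trdeg
    have h2 := F0_trdeg hz hgen hm
    have h3 := _root_.trdeg_add_eq k C (A := F0 C z u' m)
    rw [← h3, h1, add_comm (1 : Cardinal), h2]
    push_cast
    rfl
  intro w hw v e he hwv hbd
  apply hbd
  have he' : (0 : ℤ) < e := by exact_mod_cast he
  have hwv' : ∀ f : K, w.ord (e3.symm f) = e * v.ord f := hwv
  have hc : 0 ≤ w.ord RatFunc.X := by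
    rcases hw with h | h
    · exact absurd h RatFunc.X_ne_zero
    · exact h
  refine Or.inl ⟨fun c => ?_, ?_⟩
  · by_cases hc0 : c = 0
    · rw [hc0, map_zero, v.ord_zero]
    have h1 := hwv' (algebraMap C K c)
    have h2 : e3.symm (algebraMap C K c) = algebraMap (F0 C z u' m) _ (algebraMap C _ c) := by
      apply e3.injective
      rw [AlgEquiv.apply_symm_apply, e3.commutes]
      rfl
    rw [h2, w.ord_const (by simpa using hc0)] at h1
    exact (mul_eq_zero.1 h1.symm).resolve_left he'.ne'
  have hord : ∀ i, (e : ℤ) * v.ord (z i) = u' i * w.ord RatFunc.X := by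
    intro i
    have h1 : z i = mono z (BB u' m i) * (mono z m) ^ u' i := by
      rw [← mono_zsmul, ← mono_add hx0]
      have : BB u' m i + u' i • m = Pi.single i 1 := by
        change (Pi.single i 1 - u' i • m) + u' i • m = _
        exact sub_add_cancel _ _
      rw [this, mono_single]
    have h2 : mono z (BB u' m i) ∈ F0 C z u' m := by
      unfold F0
      exact IntermediateField.subset_adjoin C _ ⟨i, rfl⟩
    have h3 : e3.symm (z i) =
        algebraMap (F0 C z u' m) _ ⟨mono z (BB u' m i), h2⟩ * RatFunc.X ^ u' i := by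
      apply e3.injective
      rw [AlgEquiv.apply_symm_apply, map_mul, map_zpow₀, he3, e3.commutes]
      exact h1
    have h4 : (⟨mono z (BB u' m i), h2⟩ : F0 C z u' m) ≠ 0 := by
      intro h
      exact mono_ne hx0 _ (congrArg Subtype.val h)
    rw [← hwv', h3, w.ord_mul (by simpa using h4) (zpow_ne_zero _ RatFunc.X_ne_zero),
      w.ord_const h4, w.ord_zpow, zero_add]
  rcases hc.eq_or_lt with hc | hc
  · have : (fun i => v.ord (z i)) = 0 := by
      funext i
      have h1 := hord i
      rw [← hc, mul_zero] at h1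
      exact (mul_eq_zero.1 h1).resolve_left he'.ne'
    rw [this]
    exact h0
  · rw [← hH e _ he]
    have : (e • fun i => v.ord (z i)) = (w.ord RatFunc.X).toNat • u' := by
      funext i
      rw [Pi.smul_apply, Pi.smul_apply, nsmul_eq_mul, nsmul_eq_mul, hord i, mul_comm]
      congr 1
      rw [Int.natCast_toNat_eq_self.2 hc.le]
    rw [this, hH _ _ (by omega)]
    exact huS

end

end Pool.Agent.J4.H11.CX
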