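import Pool.Agent.J4.H11.CX.Class
import Pool.Agent.J4.H11.CX.Hor
import Pool.Agent.N145.PL.A1Psef
import Pool.Agent.W602.GT.KPsefS

/-! Varieties with a torus action of complexity one: `A¹`-uniruledness and the logarithmic Kodaira
dimension. -/

set_option autoImplicit false
set_option linter.overlappingInstances false
set_option linter.unusedSectionVars false
set_option maxHeartbeats 4000000
set_option synthInstance.maxHeartbeats 400000

open FF IntermediateField Pool.Agent.W619.PQ Pool.Agent.W603.LV Pool.Agent.R885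
  Pool.Agent.W602.GT Pool.Agent.J4.H11.TQ

namespace Pool.Agent.J4.H11.CX

section

variable {k C K : Type} [Field k] [Field C] [Algebra k C] [Field K] [Algebra k K] [Algebra C K]
  [IsScalarTower k C K] {r : ℕ} [CharZero k] [IsFF k C] [IsAlgClosed k]

theorem tfae {z : Fin r → K} (hz : AlgebraicIndependent C z)
    (hgen : IntermediateField.adjoin C (Set.range z) = ⊤)
    {S : Place k C → ℕ → (Fin r → ℤ) → Prop} {H : (Fin r → ℤ) → Prop} (h0 : H 0)
    (hH : ∀ (m : ℕ) (v : Fin r → ℤ), 0 < m → (H (m • v) ↔ H v))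
    (hS : ∀ (p : Place k C) (m μ : ℕ) (v : Fin r → ℤ), 0 < m → 0 < μ →
      (S p (m * μ) (m • v) ↔ S p μ v)) (hfin : {p | ¬ S p 1 0}.Finite) :
    [Pool.Agent.W619.PL.IsA1Uniruled k K (r + 1) (CBd z S H),
      ¬ KodGe k K (r + 1) (CBd z S H) 0, ¬ Psef k K (r + 1) (CBd z S H),
      (∃ v, H v ∧ v ≠ 0) ∨ ((∃ t : C, k⟮t⟯ = ⊤) ∧
        ∀ F : Finset (Place k C), ∑ p ∈ F, (1 - 1 / (mult S p : ℚ)) < 2)].TFAE := by
  classical
  obtain ⟨t, ht⟩ := exists_t (k := k) (C := C)
  have hb := basis_cons (K := K) ht hz hgen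
  have hn : Algebra.trdeg k K = (r + 1 : ℕ) := by
    rw [← hb.cardinalMk_eq_trdeg]
    simp
  have hess : Algebra.EssFiniteType k K := by
    have h1 : Algebra.EssFiniteType k C := IsFF.ess
    have hchC : CharZero C := charZero_of_injective_algebraMap (algebraMap k C).injective
    have h2 : Algebra.EssFiniteType C K := ess_L hgen
    exact Algebra.EssFiniteType.comp k C K
  tfae_have 1 → 3 := fun h => Pool.Agent.N145.PL.not_psef_of_a1 hn h
  tfae_have 3 → 2 := fun h hk => h (psef_of_kodGe hk)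
  tfae_have 2 → 4 := by
    intro h
    by_contra hcon
    rw [not_or] at hcon
    obtain ⟨h1, h2⟩ := hcon
    apply h
    refine kod_ge_of hz hgen (fun u hu => ?_) hfin h2 hess
    by_contra hne
    exact h1 ⟨u, hu, hne⟩
  tfae_have 4 → 1 := by
    rintro (⟨v0, hv0, hne⟩ | ⟨hrat, hsum⟩)
    · exact a1_hor hz hgen h0 hH hv0 hne
    · have hfin1 : {p | mult S p ≠ 1}.Finite :=
        hfin.subset fun p hp h => hp (mult_one h)
      obtain ⟨ι, hι⟩ := cover hrat (mult S) hfin1 hsum
      exact a1_cover hz hgen h0 hS hfin ι hι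
  tfae_finish

/-- The boundary of an affine variety with a torus action. -/
theorem affine_bd {z : Fin r → K} (hz0 : ∀ i, z i ≠ 0) {J : Type} (c : J → C)
    (hc : ∀ j, c j ≠ 0) (m : J → Fin r → ℤ) (w : Place k K) :
    CBd z (fun (p : Place k C) (μ : ℕ) v => ∀ j, 0 ≤ μ * p.ord (c j) + ∑ i, m j i * v i)
      (fun v => ∀ j, 0 ≤ ∑ i, m j i * v i) w ↔
    ∃ f ∈ Algebra.adjoin k (Set.range fun j => algebraMap C K (c j) * ∏ i, z i ^ m j i),
      ¬ w.Reg f := by
  have hc' : ∀ j, algebraMap C K (c j) ≠ 0 := fun j => by simpa using hc j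
  have hm0 : ∀ j, ∏ i, z i ^ m j i ≠ 0 := fun j =>
    Finset.prod_ne_zero_iff.2 fun i _ => zpow_ne_zero _ (hz0 i)
  have hord : ∀ j, w.ord (algebraMap C K (c j) * ∏ i, z i ^ m j i) =
      w.ord (algebraMap C K (c j)) + ∑ i, m j i * w.ord (z i) := by
    intro j
    rw [w.ord_mul (hc' j) (hm0 j), ord_prod _ _ _ fun i _ => zpow_ne_zero _ (hz0 i)]
    congr 1
    exact Finset.sum_congr rfl fun i _ => w.ord_zpow _ _
  have h1 : (∃ f ∈ Algebra.adjoin k (Set.range fun j => algebraMap C K (c j) *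
      ∏ i, z i ^ m j i), ¬ w.Reg f) ↔
      ¬ ∀ j, 0 ≤ w.ord (algebraMap C K (c j)) + ∑ i, m j i * w.ord (z i) := by
    constructor
    · rintro ⟨f, hf, hnf⟩ hall
      apply hnf
      clear hnf
      induction hf using Algebra.adjoin_induction with
      | mem y hy =>
        obtain ⟨j, rfl⟩ := hy
        right
        change 0 ≤ w.ord (algebraMap C K (c j) * ∏ i, z i ^ m j i)
        rw [hord]
        exact hall j
      | algebraMap c => exact w.reg_const c
      | add a b _ _ ha hb => exact w.reg_add ha hb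
      | mul a b _ _ ha hb => exact w.reg_mul ha hb
    · intro h
      push Not at h
      obtain ⟨j, hj⟩ := h
      refine ⟨_, Algebra.subset_adjoin ⟨j, rfl⟩, ?_⟩
      rw [w.reg_iff (mul_ne_zero (hc' j) (hm0 j)), hord]
      omega
  rw [h1]
  unfold CBd
  rw [not_iff_not]
  rcases triv_or_over (C := C) w with hw | ⟨p, μ, hμ, hw⟩
  · constructor
    · rintro (⟨-, h⟩ | ⟨p, μ, hμ, hw', -⟩)
      · intro j
        rw [hw, zero_add]
        exact h j
      · obtain ⟨t, -, ht⟩ := p.surj
        have h2 := hw' t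
        rw [hw, ht, mul_one] at h2
        omega
    · intro h
      refine Or.inl ⟨hw, fun j => ?_⟩
      have h2 := h j
      rw [hw, zero_add] at h2
      exact h2
  · constructor
    · rintro (⟨hw', -⟩ | ⟨p', μ', hμ', hw', h⟩)
      · obtain ⟨t, -, ht⟩ := p.surj
        have h2 := hw t
        rw [hw', ht, mul_one] at h2
        omega
      · intro j
        rw [hw']
        exact h j
    · intro h
      refine Or.inr ⟨p, μ, hμ, hw, fun j => ?_⟩
      have h2 := h j
      rw [hw] at h2
      exact h2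

end

end Pool.Agent.J4.H11.CX
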