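import Pool.Agent.J4.H11.TQ.Form
import Pool.Agent.W619.X.Good
import Pool.Agent.W619.Y.LRes

/-! Varieties with a torus action of complexity one: definitions and derivations. -/

set_option autoImplicit false
set_option linter.overlappingInstances false
set_option linter.unusedSectionVars false
set_option maxHeartbeats 4000000
set_option synthInstance.maxHeartbeats 400000

open FF IntermediateField Pool.Agent.W619.PQ Pool.Agent.W603.LV Pool.Agent.R885
  Pool.Agent.W619.Y Pool.Agent.W619.TW Pool.Agent.W602.GT Pool.Agent.J4.H11.TQ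

namespace Pool.Agent.J4.H11.CX

section

variable {k C K : Type} [Field k] [Field C] [Algebra k C] [Field K] [Algebra k K] [Algebra C K]
  [IsScalarTower k C K] {r : ℕ}

/-- The places without centre on the variety with the torus action given by the coordinates `z`
and the hyperfan `(S, H)`. -/
def CBd (z : Fin r → K) (S : Place k C → ℕ → (Fin r → ℤ) → Prop) (H : (Fin r → ℤ) → Prop)
    (w : Place k K) : Prop :=
  ¬ (((∀ c : C, w.ord (algebraMap C K c) = 0) ∧ H fun i => w.ord (z i)) ∨
    ∃ (p : Place k C) (μ : ℕ), 0 < μ ∧ (∀ c : C, w.ord (algebraMap C K c) = μ * p.ord c) ∧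
      S p μ fun i => w.ord (z i))

/-- The multiplicity of the fibre over `p`: the least multiplicity of a component, and `0` if the
fibre is empty. -/
noncomputable def mult (S : Place k C → ℕ → (Fin r → ℤ) → Prop) (p : Place k C) : ℕ :=
  sInf {μ | 0 < μ ∧ ∃ u, S p μ u}

theorem mult_le {S : Place k C → ℕ → (Fin r → ℤ) → Prop} {p : Place k C} {μ : ℕ} (hμ : 0 < μ)
    {u : Fin r → ℤ} (h : S p μ u) : mult S p ≤ μ := Nat.sInf_le ⟨hμ, u, h⟩

theorem mult_mem {S : Place k C → ℕ → (Fin r → ℤ) → Prop} {p : Place k C} (h : mult S p ≠ 0) :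
    ∃ u, S p (mult S p) u := by
  have h1 : {μ | 0 < μ ∧ ∃ u, S p μ u}.Nonempty := by
    by_contra hne
    rw [Set.not_nonempty_iff_eq_empty] at hne
    apply h
    unfold mult
    rw [hne, Nat.sInf_empty]
  exact (Nat.sInf_mem h1).2

theorem mult_pos {S : Place k C → ℕ → (Fin r → ℤ) → Prop} {p : Place k C} {μ : ℕ} (hμ : 0 < μ)
    {u : Fin r → ℤ} (h : S p μ u) : 0 < mult S p := by
  have h1 : {μ | 0 < μ ∧ ∃ u, S p μ u}.Nonempty := ⟨μ, hμ, u, h⟩
  exact (Nat.sInf_mem h1).1

theorem mult_one {S : Place k C → ℕ → (Fin r → ℤ) → Prop} {p : Place k C} {u : Fin r → ℤ}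
    (h : S p 1 u) : mult S p = 1 := by
  have h1 := mult_le one_pos h
  have h2 := mult_pos one_pos h
  omega

variable [CharZero k]

theorem E2_map (t f : C) (G : Polynomial (Polynomial k)) :
    E2 (algebraMap C K t) (algebraMap C K f) G = algebraMap C K (E2 t f G) := by
  rw [E2_apply, E2_apply, Polynomial.hom_eval₂]
  congr 1
  ext x
  · simp [← IsScalarTower.algebraMap_apply]
  · simp

/-- The values of a derivation on the subfield of transcendence degree one. -/
theorem der_C [IsFF k C] {t : C} (ht : Transcendental k t) {D0 : Derivation k C C}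
    (hD0 : D0 t ≠ 0) (D : Derivation k K K) (f : C) : D (algebraMap C K f) =
      D (algebraMap C K t) / algebraMap C K (D0 t) * algebraMap C K (D0 f) := by
  obtain ⟨G, hG, hG'⟩ := exists_poly ht f
  have h1 := chain D0 t f G
  have h2 := chain D (algebraMap C K t) (algebraMap C K f) G
  rw [E2_map, E2_map, E2_map, hG, map_zero, map_zero] at h2
  rw [hG, map_zero] at h1
  have h3 := congrArg (algebraMap C K) h1
  rw [map_zero, map_add, map_mul, map_mul] at h3
  have h4 : algebraMap C K (E2 t f (Polynomial.derivative G)) ≠ 0 := by simpa using hG'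
  have h5 : algebraMap C K (D0 t) ≠ 0 := by simpa using hD0
  rw [div_mul_eq_mul_div, eq_div_iff h5]
  apply mul_left_cancel₀ h4
  linear_combination D (algebraMap C K t) * h3 - algebraMap C K (D0 t) * h2

end

end Pool.Agent.J4.H11.CX
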