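import Mathlib

/-! Coprime polynomials with `A ^ a + B ^ b + C ^ c = 0` for the spherical triples. -/

set_option autoImplicit false
set_option linter.unusedSectionVars false
set_option maxHeartbeats 4000000

open Polynomial

namespace Pool.Agent.J4.H11.CX

section

variable (k : Type*) [Field k]

/-- nonconstant coprime polynomials with `A ^ a + B ^ b + C ^ c = 0` -/
def Sol (a b c : ℕ) : Prop := ∃ A B C : k[X], A ^ a + B ^ b + C ^ c = 0 ∧ IsCoprime A B ∧
  IsCoprime A C ∧ IsCoprime B C ∧ 0 < A.natDegree ∧ 0 < B.natDegree ∧ 0 < C.natDegree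

variable {k}

theorem Sol.swap12 {a b c : ℕ} (h : Sol k a b c) : Sol k b a c := by
  obtain ⟨A, B, C, h0, h1, h2, h3, h4, h5, h6⟩ := h
  exact ⟨B, A, C, by rw [add_comm (B ^ b)]; exact h0, h1.symm, h3, h2, h5, h4, h6⟩

theorem Sol.swap23 {a b c : ℕ} (h : Sol k a b c) : Sol k a c b := by
  obtain ⟨A, B, C, h0, h1, h2, h3, h4, h5, h6⟩ := h
  exact ⟨A, C, B, by rw [add_right_comm]; exact h0, h2, h1, h3.symm, h4, h6, h5⟩

theorem Sol.mk' {a b c : ℕ} (ha : 0 < a) (hb : 0 < b) (hc : 0 < c) {A B C : k[X]}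
    (h : A ^ a + B ^ b + C ^ c = 0) (hBC : IsCoprime B C) (hA : 0 < A.natDegree)
    (hB : 0 < B.natDegree) (hC : 0 < C.natDegree) : Sol k a b c := by
  have h1 : IsCoprime B A := by
    have h2 : IsCoprime B (C ^ c) := hBC.pow_right
    have h3 : IsCoprime B (C ^ c + B * B ^ (b - 1)) := h2.add_mul_left_right _
    have h4 : C ^ c + B * B ^ (b - 1) = -A ^ a := by
      rw [← pow_succ', Nat.sub_add_cancel hb]
      linear_combination h
    rw [h4] at h3
    exact (IsCoprime.pow_right_iff ha).1 ((IsCoprime.neg_right_iff _ _).1 h3)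
  have h2 : IsCoprime C A := by
    have h2 : IsCoprime C (B ^ b) := hBC.symm.pow_right
    have h3 : IsCoprime C (B ^ b + C * C ^ (c - 1)) := h2.add_mul_left_right _
    have h4 : B ^ b + C * C ^ (c - 1) = -A ^ a := by
      rw [← pow_succ', Nat.sub_add_cancel hc]
      linear_combination h
    rw [h4] at h3
    exact (IsCoprime.pow_right_iff ha).1 ((IsCoprime.neg_right_iff _ _).1 h3)
  exact ⟨A, B, C, h, h1.symm, h2.symm, hBC, hA, hB, hC⟩

variable [CharZero k] [IsAlgClosed k]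

theorem exists_root (n : ℕ) (hn : 0 < n) (x : k) : ∃ y : k, y ^ n = x :=
  IsAlgClosed.exists_pow_nat_eq x hn

theorem cop_X {P : k[X]} (hP : P.coeff 0 ≠ 0) : IsCoprime X P := by
  have h1 : P = X * P.divX + C (P.coeff 0) := (X_mul_divX_add P).symm
  refine ⟨-(C (P.coeff 0)⁻¹ * P.divX), C (P.coeff 0)⁻¹, ?_⟩
  have h2 : C (P.coeff 0)⁻¹ * C (P.coeff 0) = 1 := by
    rw [← C_mul, inv_mul_cancel₀ hP, C_1]
  calc -(C (P.coeff 0)⁻¹ * P.divX) * X + C (P.coeff 0)⁻¹ * P
      = -(C (P.coeff 0)⁻¹ * P.divX) * X + C (P.coeff 0)⁻¹ * (X * P.divX + C (P.coeff 0)) := by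
        rw [← h1]
    _ = C (P.coeff 0)⁻¹ * C (P.coeff 0) := by ring
    _ = 1 := h2

/-- the dihedral case -/
theorem sol_dih {m : ℕ} (hm : 0 < m) : Sol k 2 2 m := by
  obtain ⟨i, hi⟩ := exists_root (k := k) 2 two_pos (-1)
  have hi0 : i ≠ 0 := by
    rintro rfl
    norm_num at hi
  have hCi : (C i : k[X]) ^ 2 = -1 := by
    rw [← C_pow, hi, C_neg, C_1]
  have h4 : (C (1 / 2 : k) : k[X]) ^ 2 * 4 = 1 := by
    rw [← map_ofNat C 4, ← C_pow, ← C_mul]
    norm_num
  have hd : ∀ c : k, (X ^ m + C c : k[X]).natDegree = m := fun c =>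
    natDegree_X_pow_add_C
  have h2 : (1 / 2 : k) ≠ 0 := by norm_num
  refine (Sol.mk' (a := 2) (b := 2) (c := m) two_pos two_pos hm
    (A := C (1 / 2) * (X ^ m + C (-1))) (B := C (i * (1 / 2)) * (X ^ m + C 1)) (C := X)
    ?_ ?_ ?_ ?_ ?_)
  · rw [C_mul, mul_pow, mul_pow, mul_pow, hCi, C_neg, C_1]
    linear_combination (-X ^ m : k[X]) * h4
  · apply IsCoprime.symm
    apply cop_X
    simp [hi0, hm.ne, coeff_X_pow]
  · rw [natDegree_C_mul h2, hd]
    exact hm
  · rw [natDegree_C_mul (mul_ne_zero hi0 h2), hd]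
    exact hm
  · rw [natDegree_X]
    exact one_pos

/-- the tetrahedral case -/
theorem sol_tet : Sol k 2 3 3 := by
  obtain ⟨w, hw⟩ := exists_root (k := k) 2 two_pos (-3)
  have hw0 : w ≠ 0 := by
    rintro rfl
    norm_num at hw
  obtain ⟨κ, hκ⟩ := exists_root (k := k) 2 two_pos (12 * w)
  have hκ0 : κ ≠ 0 := by
    rintro rfl
    rw [zero_pow two_ne_zero] at hκ
    exact (mul_ne_zero (by norm_num) hw0) hκ.symm
  have hCw : (C w : k[X]) ^ 2 = -3 := by
    rw [← C_pow, hw, C_neg, map_ofNat]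
  have hCκ : (C κ : k[X]) ^ 2 = 12 * C w := by
    rw [← C_pow, hκ, C_mul, map_ofNat]
  refine Sol.mk' (a := 2) (b := 3) (c := 3) two_pos three_pos three_pos
    (A := C κ * (X ^ 5 - X)) (B := -(X ^ 4 + 2 * C w * X ^ 2 + 1))
    (C := X ^ 4 - 2 * C w * X ^ 2 + 1) ?_ ?_ ?_ ?_ ?_
  · rw [mul_pow, hCκ]
    linear_combination (-16 * C w * X ^ 6 : k[X]) * hCw
  · apply IsCoprime.neg_left
    have h1 : IsCoprime (X ^ 4 + 2 * C w * X ^ 2 + 1 : k[X]) (C (-4 * w) * X ^ 2) := by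
      have h2 : IsCoprime (X : k[X]) (X ^ 4 + 2 * C w * X ^ 2 + 1) := by
        apply cop_X
        simp
      have h3 : IsUnit (C (-4 * w) : k[X]) := isUnit_C.2 (isUnit_iff_ne_zero.2 (by
        simp [hw0]))
      exact (isCoprime_mul_unit_left_right h3 _ _).2 h2.symm.pow_right
    have h4 := h1.add_mul_left_right 1
    have h5 : C (-4 * w) * X ^ 2 + (X ^ 4 + 2 * C w * X ^ 2 + 1) * 1 =
        (X ^ 4 - 2 * C w * X ^ 2 + 1 : k[X]) := by
      rw [C_mul, C_neg]
      rw [map_ofNat]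
      ring
    rwa [h5] at h4
  · rw [natDegree_C_mul hκ0]
    have : (X ^ 5 - X : k[X]).natDegree = 5 := by compute_degree!
    omega
  · have : (-(X ^ 4 + 2 * C w * X ^ 2 + 1) : k[X]).natDegree = 4 := by
      rw [natDegree_neg]
      compute_degree!
    omega
  · have : (X ^ 4 - 2 * C w * X ^ 2 + 1 : k[X]).natDegree = 4 := by compute_degree!
    omega

/-- the octahedral case -/
theorem sol_oct : Sol k 2 3 4 := by
  obtain ⟨κ, hκ⟩ := exists_root (k := k) 4 (by norm_num) 108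
  have hκ0 : κ ≠ 0 := by
    rintro rfl
    norm_num at hκ
  have hCκ : (C κ : k[X]) ^ 4 = 108 := by
    rw [← C_pow, hκ, map_ofNat]
  refine Sol.mk' (a := 2) (b := 3) (c := 4) two_pos three_pos four_pos
    (A := X ^ 12 - 33 * X ^ 8 - 33 * X ^ 4 + 1) (B := -(X ^ 8 + 14 * X ^ 4 + 1))
    (C := C κ * (X ^ 5 - X)) ?_ ?_ ?_ ?_ ?_
  · rw [mul_pow, hCκ]
    ring
  · apply IsCoprime.neg_left
    have h3 : IsUnit (C κ : k[X]) := isUnit_C.2 (isUnit_iff_ne_zero.2 hκ0)
    refine (isCoprime_mul_unit_left_right h3 _ _).2 ?_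
    have h1 : IsCoprime (X ^ 8 + 14 * X ^ 4 + 1 : k[X]) (X ^ 4 - 1) := by
      refine ⟨C (1 / 16), -C (1 / 16) * (X ^ 4 + 15), ?_⟩
      have h4 : (C (1 / 16 : k) : k[X]) * 16 = 1 := by
        rw [← map_ofNat C 16, ← C_mul]
        norm_num
      linear_combination h4
    have h2 : IsCoprime (X ^ 8 + 14 * X ^ 4 + 1 : k[X]) X := by
      apply IsCoprime.symm
      apply cop_X
      simp
    have h5 := h2.mul_right h1
    have h6 : (X * (X ^ 4 - 1) : k[X]) = X ^ 5 - X := by ring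
    rwa [h6] at h5
  · have : (X ^ 12 - 33 * X ^ 8 - 33 * X ^ 4 + 1 : k[X]).natDegree = 12 := by compute_degree!
    omega
  · have : (-(X ^ 8 + 14 * X ^ 4 + 1) : k[X]).natDegree = 8 := by
      rw [natDegree_neg]
      compute_degree!
    omega
  · rw [natDegree_C_mul hκ0]
    have : (X ^ 5 - X : k[X]).natDegree = 5 := by compute_degree!
    omega

/-- the icosahedral case -/
theorem sol_ico : Sol k 2 3 5 := by
  obtain ⟨κ, hκ⟩ := exists_root (k := k) 5 (by norm_num) (-1728)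
  have hκ0 : κ ≠ 0 := by
    rintro rfl
    norm_num at hκ
  have hCκ : (C κ : k[X]) ^ 5 = -1728 := by
    rw [← C_pow, hκ, C_neg, map_ofNat]
  refine Sol.mk' (a := 2) (b := 3) (c := 5) two_pos three_pos (by norm_num)
    (A := X ^ 30 + 1 + 522 * (X ^ 25 - X ^ 5) - 10005 * (X ^ 20 + X ^ 10))
    (B := -(X ^ 20 + 1 - 228 * (X ^ 15 - X ^ 5) + 494 * X ^ 10))
    (C := C κ * (X ^ 11 + 11 * X ^ 6 - X)) ?_ ?_ ?_ ?_ ?_
  · rw [mul_pow, hCκ]
    ring
  · have h3 : IsUnit (C κ : k[X]) := isUnit_C.2 (isUnit_iff_ne_zero.2 hκ0)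
    refine (isCoprime_mul_unit_left_right h3 _ _).2 ?_
    apply IsCoprime.neg_left
    have h1 : IsCoprime (X ^ 20 + 1 - 228 * (X ^ 15 - X ^ 5) + 494 * X ^ 10 : k[X])
        (X ^ 10 + 11 * X ^ 5 - 1) := by
      refine ⟨C (1 / 3125) * (11 * X ^ 5 + 122), C (1 / 3125) * (3125 * 121 -
        (11 * X ^ 5 + 122) * (X ^ 10 - 239 * X ^ 5 + 3124)), ?_⟩
      have h4 : (C (1 / 3125 : k) : k[X]) * 3125 = 1 := by
        rw [← map_ofNat C 3125, ← C_mul]
        norm_num
      linear_combination h4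
    have h2 : IsCoprime (X ^ 20 + 1 - 228 * (X ^ 15 - X ^ 5) + 494 * X ^ 10 : k[X]) X := by
      apply IsCoprime.symm
      apply cop_X
      simp
    have h5 := h2.mul_right h1
    have h6 : (X * (X ^ 10 + 11 * X ^ 5 - 1) : k[X]) = X ^ 11 + 11 * X ^ 6 - X := by ring
    rwa [h6] at h5
  · have : (X ^ 30 + 1 + 522 * (X ^ 25 - X ^ 5) - 10005 * (X ^ 20 + X ^ 10) : k[X]).natDegree =
        30 := by compute_degree!
    omega
  · have : (-(X ^ 20 + 1 - 228 * (X ^ 15 - X ^ 5) + 494 * X ^ 10) : k[X]).natDegree = 20 := by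
      rw [natDegree_neg]
      compute_degree!
    omega
  · rw [natDegree_C_mul hκ0]
    have : (X ^ 11 + 11 * X ^ 6 - X : k[X]).natDegree = 11 := by compute_degree!
    omega

/-- **The spherical triples.** -/
theorem sol_all {a b c : ℕ} (ha : 2 ≤ a) (hb : 2 ≤ b) (hc : 2 ≤ c)
    (h : a * b * c < b * c + a * c + a * b) : Sol k a b c := by
  have key : ∀ a b c : ℕ, 2 ≤ a → a ≤ b → b ≤ c → a * b * c < b * c + a * c + a * b →
      Sol k a b c := by
    intro a b c h2 hab hbc h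
    have ha3 : a < 3 := by
      by_contra hcon
      have h3 : 3 ≤ a := by omega
      nlinarith [Nat.mul_le_mul hab hbc, Nat.mul_le_mul h3 (le_refl (b * c)),
        Nat.mul_le_mul hab (le_refl c), Nat.mul_le_mul hbc (le_refl a)]
    obtain rfl : a = 2 := by omega
    have hb4 : b < 4 := by
      by_contra hcon
      have h4 : 4 ≤ b := by omega
      nlinarith
    have hb' : b = 2 ∨ b = 3 := by omega
    rcases hb' with rfl | rfl
    · exact sol_dih (by omega)
    · have hc6 : c < 6 := by omega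
      have hc' : c = 3 ∨ c = 4 ∨ c = 5 := by omega
      rcases hc' with rfl | rfl | rfl
      · exact sol_tet
      · exact sol_oct
      · exact sol_ico
  rcases le_total a b with h1 | h1 <;> rcases le_total b c with h2 | h2 <;>
    rcases le_total a c with h3 | h3
  · exact key a b c ha h1 h2 h
  · exact key a b c ha h1 h2 h
  · exact (key a c b ha h3 h2 (by nlinarith)).swap23
  · exact ((key c a b hc h3 h1 (by nlinarith)).swap12).swap23
  · exact (key b a c hb h1 h3 (by nlinarith)).swap12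
  · exact ((key b c a hb h2 h3 (by nlinarith)).swap23).swap12
  · exact (((key c b a hc h2 h1 (by nlinarith)).swap12).swap23).swap12
  · exact (((key c b a hc h2 h1 (by nlinarith)).swap12).swap23).swap12

end

end Pool.Agent.J4.H11.CX
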